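import Pool.Agent.Helper63.TY.FrameJ

/-!
MP_8ee768_co, project TH-Y', stage F: the kernel function of the blocks of a frame.

`runBlk eng mx X F X' F' mask` runs the blocks `b` with bit `b` of `mask` in the order
00 02 20 22 04 40 24 42 44 with one state; `eng c t ys zs` is the engine for the context numbers
`c`, `t`. `blk_of_run` gives the joins of the blocks.
-/

set_option autoImplicit false

namespace Pool.Agent.Helper63.TY

open Finset
open Pool.Agent.Helper97.CV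
open Pool.Agent.Helper33.CV
open Pool.Agent.Helper79.CV

/-- run the step `f` if the bit `b` of `mask` is set -/
def onBit (mask b : ℕ) (f : Cb) : Cb := fun s c =>
  @Bool.rec (fun _ => Bool) (c s) (f s c) (Nat.beq (Nat.land (Nat.shiftRight mask b) 1) 1)

theorem acc_onBit {mask b : ℕ} {P : Prop} {f : Cb} (h : Acc P f) :
    Acc (mask.testBit b = true → P) (onBit mask b f) := by
  intro s c hs
  unfold onBit at hs
  have e : Nat.land (Nat.shiftRight mask b) 1 = (mask >>> b) &&& 1 := rfl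
  rw [e] at hs
  by_cases hb : mask.testBit b = true
  · have h1 : (mask >>> b) &&& 1 = 1 := by
      rw [Nat.and_one_is_mod, Nat.shiftRight_eq_div_pow]
      have h2 := hb
      rw [Nat.testBit_eq_decide_div_mod_eq] at h2
      exact of_decide_eq_true h2
    rw [h1] at hs
    exact ⟨fun _ => (h s c hs).1, (h s c hs).2⟩
  · refine ⟨fun h' => absurd h' hb, ?_⟩
    have h1 : Nat.beq ((mask >>> b) &&& 1) 1 = false := by
      rw [← Bool.not_eq_true]
      intro h3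
      refine hb ?_
      rw [Nat.testBit_eq_decide_div_mod_eq]
      have h4 := Nat.eq_of_beq_eq_true h3
      rw [Nat.and_one_is_mod, Nat.shiftRight_eq_div_pow] at h4
      exact decide_eq_true h4
    rw [h1] at hs
    exact ⟨s, hs⟩

section
variable (eng : ℕ → ℕ → List ℕ → List ℕ → Cb) (mx : ℕ) (X F X' F' : ℕ → List ℕ)

/-- the blocks of a frame, selected by `mask` -/
def runBlk (mask : ℕ) : Cb :=
  seq (onBit mask 0 (eng 0 mx (X 0) (X' 0))) <|
  seq (onBit mask 1 (eng 2 (Nat.add mx 2) (X 0) (F' 2))) <|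
  seq (onBit mask 2 (eng 2 (Nat.add mx 2) (F 2) (X' 0))) <|
  seq (onBit mask 3 (eng 2 (Nat.add mx 4) (X 2) (X' 2))) <|
  seq (onBit mask 4 (eng 4 (Nat.add mx 4) (X 0) (F' 4))) <|
  seq (onBit mask 5 (eng 4 (Nat.add mx 4) (F 4) (X' 0))) <|
  seq (onBit mask 6 (eng 4 (Nat.add mx 6) (X 2) (F' 4))) <|
  seq (onBit mask 7 (eng 4 (Nat.add mx 6) (F 4) (X' 2))) <|
  onBit mask 8 (eng 4 (Nat.add mx 8) (X 4) (X' 4))

/-- the statement of the block `b` -/
def Blk (n f : ℕ) : ℕ → Prop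
  | 0 => Join n (LaneDead (StarCtx f 0 mx 0)) (X 0) (X' 0)
  | 1 => Join n (LaneDead (StarCtx f 2 (mx + 2) 0)) (X 0) (F' 2)
  | 2 => Join n (LaneDead (StarCtx f 2 (mx + 2) 0)) (F 2) (X' 0)
  | 3 => Join n (LaneDead (StarCtx f 2 (mx + 4) 0)) (X 2) (X' 2)
  | 4 => Join n (LaneDead (StarCtx f 4 (mx + 4) 0)) (X 0) (F' 4)
  | 5 => Join n (LaneDead (StarCtx f 4 (mx + 4) 0)) (F 4) (X' 0)
  | 6 => Join n (LaneDead (StarCtx f 4 (mx + 6) 0)) (X 2) (F' 4)
  | 7 => Join n (LaneDead (StarCtx f 4 (mx + 6) 0)) (F 4) (X' 2)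
  | 8 => Join n (LaneDead (StarCtx f 4 (mx + 8) 0)) (X 4) (X' 4)
  | _ => True

theorem acc_runBlk {n f : ℕ}
    (heng : ∀ c t ys zs, Acc (Join n (LaneDead (StarCtx f c t 0)) ys zs) (eng c t ys zs))
    (mask : ℕ) : Acc (∀ b < 9, mask.testBit b = true → Blk mx X F X' F' n f b)
      (runBlk eng mx X F X' F' mask) := by
  have h := acc_seq (acc_onBit (mask := mask) (b := 0) (heng 0 mx (X 0) (X' 0))) <|
    acc_seq (acc_onBit (mask := mask) (b := 1) (heng 2 (mx + 2) (X 0) (F' 2))) <|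
    acc_seq (acc_onBit (mask := mask) (b := 2) (heng 2 (mx + 2) (F 2) (X' 0))) <|
    acc_seq (acc_onBit (mask := mask) (b := 3) (heng 2 (mx + 4) (X 2) (X' 2))) <|
    acc_seq (acc_onBit (mask := mask) (b := 4) (heng 4 (mx + 4) (X 0) (F' 4))) <|
    acc_seq (acc_onBit (mask := mask) (b := 5) (heng 4 (mx + 4) (F 4) (X' 0))) <|
    acc_seq (acc_onBit (mask := mask) (b := 6) (heng 4 (mx + 6) (X 2) (F' 4))) <|
    acc_seq (acc_onBit (mask := mask) (b := 7) (heng 4 (mx + 6) (F 4) (X' 2))) <|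
    acc_onBit (mask := mask) (b := 8) (heng 4 (mx + 8) (X 4) (X' 4))
  refine Acc.mono h ?_
  rintro ⟨h0, h1, h2, h3, h4, h5, h6, h7, h8⟩ b hb hm
  match b, hb with
  | 0, _ => exact h0 hm
  | 1, _ => exact h1 hm
  | 2, _ => exact h2 hm
  | 3, _ => exact h3 hm
  | 4, _ => exact h4 hm
  | 5, _ => exact h5 hm
  | 6, _ => exact h6 hm
  | 7, _ => exact h7 hm
  | 8, _ => exact h8 hm
  | n + 9, h => omega

end

/-- a frame from its blocks -/
theorem frameF_of_blk {reps : List ℕ} {j f Ty Tz mx : ℕ} {ρy ρz : Equiv.Perm (Fin 13)}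
    (hd : FrameD f Ty Tz ρy ρz) {A A' : Set (Equiv.Perm (Fin 13))}
    {l lx l' lx' : List (ℕ × ℕ)}
    (hl : TabA reps Ty 4 (fun _ _ => True) A l) (hlx : TabA reps Ty 4 RelX A lx)
    (hl' : TabA reps Tz 4 (fun _ _ => True) A' l') (hlx' : TabA reps Tz 4 RelX A' lx')
    {lo hi : ℕ → ℕ} (hs : SizeOK reps lo hi) (hmx : MxOK lo hi j mx)
    {n : ℕ} {X F X' F' : ℕ → List ℕ}
    (hX : ∀ m, m = 0 ∨ m = 2 ∨ m = 4 → cubesA Ty j (lo m) (hi m) ρy A lx ⊆ Lanes n (X m))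
    (hF : ∀ m, m = 2 ∨ m = 4 → cubesA Ty j (lo m) (hi m) ρy A l ⊆ Lanes n (F m))
    (hX' : ∀ m, m = 0 ∨ m = 2 ∨ m = 4 → cubesA Tz j (lo m) (hi m) ρz A' lx' ⊆ Lanes n (X' m))
    (hF' : ∀ m, m = 2 ∨ m = 4 → cubesA Tz j (lo m) (hi m) ρz A' l' ⊆ Lanes n (F' m))
    (h : ∀ b < 9, Blk mx X F X' F' n f b) : FrameF reps j f :=
  frameF_of_joins hd hl hlx hl' hlx' hs hmx hX hF hX' hF' (h 0 (by omega)) (h 1 (by omega))
    (h 2 (by omega)) (h 3 (by omega)) (h 4 (by omega)) (h 5 (by omega)) (h 6 (by omega))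
    (h 7 (by omega)) (h 8 (by omega))

end Pool.Agent.Helper63.TY
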