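import Pool.Agent.Helper63.TY.Comp
import Pool.Agent.Helper91.TY.Hits

/-!
MP_8ee768_co, project TH-Y', star engine: the keys of a chunk (64 lanes of 2048 bits) and the
concrete pair step.

`gK u` (31 bits) is the xor fold of the upper half of the lane `u`, it does not depend on the bit
2047. `keyRow m Y` holds the keys in the lanes of the chunk as they are, `cmp` compresses them.
-/

set_option autoImplicit false
set_option exponentiation.threshold 140000

namespace Pool.Agent.Helper63.TY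

open Pool.Agent.Helper63.SIMD
open Pool.Agent.Helper74.TY (frc frc_eq)

/-- evaluation of an argument -/
def frcN (v : ℕ) (f : ℕ → ℕ) : ℕ := @Nat.rec (fun _ => ℕ) (f 0) (fun n _ => f (Nat.succ n)) v

theorem frcN_eq (v : ℕ) (f : ℕ → ℕ) : frcN v f = f v := by cases v <;> rfl

/-- one folding step -/
def fs (d x : ℕ) : ℕ := Nat.xor x (Nat.shiftRight x d)

/-- the fold of the upper half; the distances are irregular: with the powers of two the keys of links collide
for structural reasons (more than 100 false hits for each true one) -/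
def fold (x : ℕ) : ℕ :=
  frcN (Nat.shiftRight x 1024) fun x => frcN (fs 361 x) fun x => frcN (fs 282 x) fun x =>
    frcN (fs 140 x) fun x => frcN (fs 57 x) fun x => fs 34 x

/-- the keys in the lanes -/
def keyRow (m x : ℕ) : ℕ := Nat.land (fold x) m

/-- the key of a lane -/
def gK (u : ℕ) : ℕ := fold u % 2 ^ 31

theorem gK_lt (u : ℕ) : gK u < 2 ^ (32 - 1) := Nat.mod_lt _ (by norm_num)

theorem fs_agree {n d x y a b : ℕ}
    (h : ∀ s, s < n + d → x.testBit (a + s) = y.testBit (b + s)) :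
    ∀ s, s < n → (fs d x).testBit (a + s) = (fs d y).testBit (b + s) := by
  intro s hs
  show (x ^^^ (x >>> d)).testBit (a + s) = (y ^^^ (y >>> d)).testBit (b + s)
  rw [Nat.testBit_xor, Nat.testBit_xor, Nat.testBit_shiftRight, Nat.testBit_shiftRight,
    h s (by omega), show d + (a + s) = a + (d + s) by omega,
    show d + (b + s) = b + (d + s) by omega, h (d + s) (by omega)]

theorem fold_agree {x y a b : ℕ}
    (h : ∀ s, s < 1023 → x.testBit (a + (1024 + s)) = y.testBit (b + (1024 + s))) :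
    ∀ s, s < 31 → (fold x).testBit (a + s) = (fold y).testBit (b + s) := by
  unfold fold
  simp only [frcN_eq]
  have h0 : ∀ s, s < 662 + 361 → (x >>> 1024).testBit (a + s) =
      (y >>> 1024).testBit (b + s) := by
    intro s hs
    rw [Nat.testBit_shiftRight, Nat.testBit_shiftRight,
      show 1024 + (a + s) = a + (1024 + s) by omega,
      show 1024 + (b + s) = b + (1024 + s) by omega]
    exact h s (by omega)
  have h1 := fs_agree (n := 662) (d := 361) h0
  have h2 := fs_agree (n := 380) (d := 282) (fun s hs => h1 s (by omega))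
  have h3 := fs_agree (n := 240) (d := 140) (fun s hs => h2 s (by omega))
  have h4 := fs_agree (n := 183) (d := 57) (fun s hs => h3 s (by omega))
  have h5 := fs_agree (n := 149) (d := 34) (fun s hs => h4 s (by omega))
  intro s hs
  exact h5 s (by omega)

/-- two lanes agree in the upper half, apart from the last bit -/
def Agree (u v : ℕ) : Prop := ∀ s, s < 1023 → u.testBit (1024 + s) = v.testBit (1024 + s)

theorem agree_of_shift {u v : ℕ} (h : u >>> 1024 = v >>> 1024) : Agree u v := by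
  intro s _
  rw [← Nat.testBit_shiftRight, ← Nat.testBit_shiftRight, h]

theorem gK_agree {u v : ℕ} (h : Agree u v) : gK u = gK v := by
  refine Nat.eq_of_testBit_eq fun t => ?_
  unfold gK
  rw [Nat.testBit_mod_two_pow, Nat.testBit_mod_two_pow]
  by_cases ht : t < 31
  · have h1 := fold_agree (a := 0) (b := 0) (x := u) (y := v)
      (fun s hs => by simpa using h s hs) t ht
    simp only [Nat.zero_add] at h1
    rw [h1]
  · simp [ht]

/-! ### bits and fields -/

theorem testBit_fld {W A i t : ℕ} (ht : t < W) : (fld W A i).testBit t = A.testBit (W * i + t) := by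
  unfold fld
  rw [Nat.testBit_mod_two_pow, Nat.testBit_div_two_pow, Nat.add_comm t]
  simp [ht]

theorem testBit_fld_ge {W A i t : ℕ} (ht : W ≤ t) : (fld W A i).testBit t = false := by
  unfold fld
  rw [Nat.testBit_mod_two_pow]
  simp [Nat.not_lt.2 ht]

theorem eq_of_fld {W n A B : ℕ} (hA : A < 2 ^ (W * n)) (hB : B < 2 ^ (W * n))
    (h : ∀ i < n, fld W A i = fld W B i) : A = B := by
  rw [← pk_fld hA, ← pk_fld hB]
  exact pk_congr h

/-- the mask of the keys -/
def mK : ℕ := 2147483647 * rep 2048 64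

theorem mK_eq : mK = pk 2048 64 (fun _ => 2 ^ 31 - 1) := mul_rep (by norm_num) _

theorem mK_lt : mK < 2 ^ (2048 * 64) := by
  rw [mK_eq]
  exact pk_lt fun i _ => lt_of_lt_of_le (by norm_num : 2 ^ 31 - 1 < 2 ^ 31)
    (Nat.pow_le_pow_right (by norm_num) (by norm_num))

theorem keyRow_eq (Y : ℕ) : keyRow mK Y = pk 2048 64 (fun i => gK (fld 2048 Y i)) := by
  have hlt : ∀ i < 64, gK (fld 2048 Y i) < 2 ^ 2048 := fun i _ =>
    lt_of_lt_of_le (gK_lt _) (Nat.pow_le_pow_right (by norm_num) (by norm_num))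
  refine eq_of_fld (W := 2048) (n := 64) (lt_of_le_of_lt Nat.and_le_right mK_lt) (pk_lt hlt)
    fun i hi => ?_
  rw [fld_pk hlt hi]
  refine Nat.eq_of_testBit_eq fun t => ?_
  unfold gK
  rw [Nat.testBit_mod_two_pow]
  by_cases h1 : t < 2048
  · rw [testBit_fld h1]
    show (fold Y &&& mK).testBit (2048 * i + t) = _
    have h2 : mK.testBit (2048 * i + t) = decide (t < 31) := by
      rw [← testBit_fld h1, mK_eq, fld_pk _ hi, Nat.testBit_two_pow_sub_one]
      intro j _
      exact lt_of_lt_of_le (by norm_num : 2 ^ 31 - 1 < 2 ^ 31)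
        (Nat.pow_le_pow_right (by norm_num) (by norm_num))
    rw [Nat.testBit_and, h2]
    by_cases h3 : t < 31
    · have h4 := fold_agree (a := 2048 * i) (b := 0) (x := Y) (y := fld 2048 Y i)
        (fun s hs => by rw [Nat.zero_add, testBit_fld (by omega)]) t h3
      rw [Nat.zero_add] at h4
      simp [h3, h4]
    · simp [h3]
  · rw [testBit_fld_ge (Nat.not_lt.1 h1)]
    have h3 : ¬ t < 31 := by omega
    simp [h3]

/-! ### compression -/

/-- 32 lanes of 2048 bits (keys of 31 bits) to 32 bits per lane, `m = 2 ^ 2016 - 1` -/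
theorem cmp_half {k : ℕ → ℕ} (hk : ∀ i < 32, k i < 2 ^ 31) :
    pk 2048 32 k % (2 ^ 2016 - 1) = pk 32 32 k := by
  have h0 : (2 : ℕ) ^ 2016 ≡ 1 [MOD 2 ^ 2016 - 1] := by
    have h : (2 : ℕ) ^ 2016 = (2 ^ 2016 - 1) + 1 := (Nat.sub_add_cancel Nat.one_le_two_pow).symm
    generalize (2 : ℕ) ^ 2016 - 1 = m at h
    rw [h]
    show (m + 1) % m = 1 % m
    rw [Nat.add_mod_left]
  have h1 : pk 2048 32 k ≡ pk 32 32 k [MOD 2 ^ 2016 - 1] := by
    unfold pk
    refine Nat.ModEq.sum fun i _ => ?_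
    refine Nat.ModEq.mul_left _ ?_
    have e : 2048 * i = 2016 * i + 32 * i := by ring
    rw [e, pow_add, pow_mul 2 2016 i]
    have h2 := (h0.pow i).mul_right (2 ^ (32 * i))
    rwa [one_pow, one_mul] at h2
  have h3 : pk 32 32 k < 2 ^ 2016 - 1 := by
    have h4 : pk 32 32 k < 2 ^ (32 * 32) :=
      pk_lt fun i hi => lt_of_lt_of_le (hk i hi) (by norm_num)
    have h5 : (2 : ℕ) ^ (32 * 32) ≤ 2 ^ 2015 := Nat.pow_le_pow_right (by norm_num) (by norm_num)
    have h6 : (2 : ℕ) ^ 2016 = 2 * 2 ^ 2015 := by rw [← pow_succ']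
    have h7 := Nat.two_pow_pos 2015
    generalize (2 : ℕ) ^ 2015 = z at h5 h6 h7
    generalize (2 : ℕ) ^ 2016 = z' at h6 ⊢
    generalize (2 : ℕ) ^ (32 * 32) = z'' at h4 h5
    omega
  rw [← Nat.mod_eq_of_lt h3]
  exact h1

/-- the compression of 64 keys -/
def cmp (x : ℕ) : ℕ :=
  Nat.add (Nat.mod (Nat.mod x (Nat.pow 2 65536)) (Nat.sub (Nat.pow 2 2016) 1))
    (Nat.mul (Nat.pow 2 1024)
      (Nat.mod (Nat.shiftRight x 65536) (Nat.sub (Nat.pow 2 2016) 1)))

theorem pk_split {W n m : ℕ} (k : ℕ → ℕ) :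
    pk W (n + m) k = pk W n k + 2 ^ (W * n) * pk W m (fun i => k (n + i)) := by
  unfold pk
  rw [Finset.sum_range_add, Finset.mul_sum]
  congr 1
  refine Finset.sum_congr rfl fun i _ => ?_
  rw [Nat.mul_add, pow_add]
  ring

theorem cmp_eq {k : ℕ → ℕ} (hk : ∀ i < 64, k i < 2 ^ 31) :
    cmp (pk 2048 64 k) = pk 32 64 k := by
  have e1 : pk 2048 64 k = pk 2048 32 k + 2 ^ 65536 * pk 2048 32 (fun i => k (32 + i)) :=
    pk_split (W := 2048) (n := 32) (m := 32) k
  have e2 : pk 32 64 k = pk 32 32 k + 2 ^ 1024 * pk 32 32 (fun i => k (32 + i)) :=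
    pk_split (W := 32) (n := 32) (m := 32) k
  have h1 : pk 2048 32 k < 2 ^ 65536 :=
    pk_lt (W := 2048) (N := 32) fun i hi => lt_of_lt_of_le (hk i (by omega))
      (Nat.pow_le_pow_right (by norm_num) (by norm_num))
  show (pk 2048 64 k % 2 ^ 65536) % (2 ^ 2016 - 1) +
    2 ^ 1024 * ((pk 2048 64 k >>> 65536) % (2 ^ 2016 - 1)) = _
  rw [Nat.shiftRight_eq_div_pow, e1, Nat.add_mul_mod_self_left, Nat.mod_eq_of_lt h1,
    Nat.add_mul_div_left _ _ (Nat.two_pow_pos _), Nat.div_eq_of_lt h1, Nat.zero_add,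
    cmp_half fun i hi => hk i (by omega),
    cmp_half (k := fun i => k (32 + i)) fun i hi => hk _ (by omega), e2]

/-! ### the pair step -/

/-- the key number of a row chunk: `m = mK`, `r = rep 32 64` -/
def kRow (m r Y : ℕ) : ℕ := Nat.mul (keyRow m Y) r

/-- the key number of a column chunk: `m = mK`, `r = rep 2048 64` -/
def kCol (m r Z : ℕ) : ℕ := Nat.mul r (cmp (keyRow m Z))

/-- the pair step: `M = (2 ^ 31 - 1) * rep 32 4096`, `H = 2 ^ 31 * rep 32 4096` -/
def prS (M H A B : ℕ) (f : ℕ → Cb) : Cb := fun s c =>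
  Pool.Agent.Helper91.TY.outer M 31 4294967295 f 4097 H A B s c

theorem top_testBit {k : ℕ} (hk : k < 4096) :
    (2 ^ 31 * rep 32 4096).testBit (32 * k + 31) = true := by
  rw [← testBit_fld (by norm_num), mul_rep (by norm_num), fld_pk (fun i _ => by norm_num) hk]
  decide

theorem visits_prS : Visits 2048 64 (kRow mK (rep 32 64)) (kCol mK (rep 2048 64))
    (prS ((2 ^ 31 - 1) * rep 32 4096) (2 ^ 31 * rep 32 4096)) (fun _ => True) Agree := by
  intro Y Z _ _ P f hP hT
  have hf : ∀ k, Pool.Agent.Helper91.TY.Acc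
      (∀ i j, i < 64 → j < 64 → k = 64 * i + j → P i j) (f k) := by
    intro k s c h
    refine ⟨fun i j hi hj hk => ?_, (hT k s c h).2⟩
    rw [hk] at h
    exact (hP i j hi hj s c h).1
  intro s c h
  have e1 : kRow mK (rep 32 64) Y =
      pk (32 * 64) 64 (fun i => gK (fld 2048 Y i)) * rep 32 64 := by
    show keyRow mK Y * rep 32 64 = _
    rw [keyRow_eq]
  have e2 : kCol mK (rep 2048 64) Z =
      rep (32 * 64) 64 * pk 32 64 (fun i => gK (fld 2048 Z i)) := by
    show rep 2048 64 * cmp (keyRow mK Z) = _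
    rw [keyRow_eq, cmp_eq fun i _ => gK_lt _]
  rw [e1, e2] at h
  obtain ⟨h1, h2⟩ := Pool.Agent.Helper91.TY.outer_rows_cols (W := 32) (N := 64) (N' := 64)
    (by norm_num) (by norm_num) (by norm_num) (fun i _ => gK_lt _) (fun j _ => gK_lt _) hf h
  refine ⟨fun i j hi hj hR => ?_, h2⟩
  exact h1 i hi j hj (top_testBit (by omega)) (gK_agree hR) i j hi hj rfl

/-! ### the engine -/

/-- THE STAR ENGINE for the callback `cb` -/
def star (cb : ℕ → ℕ → Cb) (ys zs : List ℕ) : Cb := fun s c =>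
  frc mK fun m => frc (rep 32 64) fun r => frc (rep 2048 64) fun r' =>
    frc ((2 ^ 31 - 1) * rep 32 4096) fun M => frc (2 ^ 31 * rep 32 4096) fun H =>
      starChk 2048 64 (kRow m r) (kCol m r') (prS M H) cb ys zs s c

/-- SOUNDNESS of the engine, as a step -/
theorem star_acc {D : ℕ → ℕ → Prop} {cb : ℕ → ℕ → Cb}
    (hcb : ∀ u v, Acc (Agree u v → D u v) (cb u v)) (ys zs : List ℕ) :
    Acc (∀ Y ∈ ys, ∀ Z ∈ zs, ∀ i < 64, ∀ j < 64, Agree (fld 2048 Y i) (fld 2048 Z j) →
      D (fld 2048 Y i) (fld 2048 Z j)) (star cb ys zs) := by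
  intro s c h
  unfold star at h
  simp only [frc_eq] at h
  exact acc_star 2048 64 _ _ _ cb visits_prS hcb (fun _ _ => trivial) (fun _ _ => trivial) s c h

end Pool.Agent.Helper63.TY
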