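import Pool.Agent.Helper20.TY.ChunkF
import Pool.Agent.Helper63.TY.Key

/-!
MP_8ee768_co, project TH-Y', stage F: chains of words and glued chunks.

`chain K ws cs`: the chunks `cs` relabelled by the first word, these relabelled by the second word,
and so on (all of them in one list). If consecutive automorphisms differ by a short word this costs
less than `relab`. `ChP ws σ`: the permutation `σ` is the product of a prefix of the words;
`chWords` checks that the prefixes are `ρ * α`. `glu J cs` glues the 64-lane chunks two by two to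
128-lane chunks, `J` is put above a single last chunk.
-/

set_option autoImplicit false

namespace Pool.Agent.Helper63.TY

open Finset
open Pool.Agent.Helper63.SIMD
open Pool.Agent.Helper79.CV
open Pool.Agent.Helper33.CV (cub valL)
open Pool.Agent.Helper91.TY (runC okW prs wpc fld_runC)
open Pool.Agent.Helper20.TY (Lanes runP idP IsP isP_runP isP_one numL isP_numL)

/-! ### chains -/

/-- map in raw form -/
def mapL (f : ℕ → ℕ) (l : List ℕ) : List ℕ :=
  @List.rec ℕ (fun _ => List ℕ) [] (fun a _ ih => f a :: ih) l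

theorem mapL_eq (f : ℕ → ℕ) (l : List ℕ) : mapL f l = l.map f := by
  induction l with
  | nil => rfl
  | cons a l ih =>
    show f a :: mapL f l = _
    rw [ih]
    rfl

/-- append in raw form -/
def appL (l t : List ℕ) : List ℕ :=
  @List.rec ℕ (fun _ => List ℕ) t (fun a _ ih => a :: ih) l

theorem appL_eq (l t : List ℕ) : appL l t = l ++ t := by
  induction l with
  | nil => rfl
  | cons a l ih =>
    show a :: appL l t = _
    rw [ih]
    rfl

/-- all the relabelled lists of a chain of words (word, length) -/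
noncomputable def chain (K : ℕ) (ws : List (ℕ × ℕ)) : List ℕ → List ℕ :=
  @List.rec (ℕ × ℕ) (fun _ => List ℕ → List ℕ) (fun _ => [])
    (fun w _ ih cs => (fun cs' => appL cs' (ih cs')) (mapL (runC K w.2 w.1) cs)) ws

theorem chain_cons (K : ℕ) (w : ℕ × ℕ) (ws : List (ℕ × ℕ)) (cs : List ℕ) :
    chain K (w :: ws) cs = cs.map (runC K w.2 w.1) ++ chain K ws (cs.map (runC K w.2 w.1)) := by
  show appL (mapL (runC K w.2 w.1) cs) (chain K ws (mapL (runC K w.2 w.1) cs)) = _
  rw [appL_eq, mapL_eq]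

/-- `σ` is the product of a prefix of the words -/
def ChP : List (ℕ × ℕ) → Equiv.Perm (Fin 13) → Prop
  | [], _ => False
  | x :: ws, σ => okW 11 x.1 x.2 = true ∧
      (σ = wpc (prs x.1 x.2) ∨ ∃ τ, ChP ws τ ∧ σ = τ * wpc (prs x.1 x.2))

theorem lanes_map {n K : ℕ} (hK : K = 2 ^ 11 * n) {cs : List ℕ} {w : ℕ × ℕ}
    (hok : okW 11 w.1 w.2 = true) {D : Fam} (h : cub 11 D ∈ Lanes n cs) :
    cub 11 (mapF (wpc (prs w.1 w.2)) D) ∈ Lanes n (cs.map (runC K w.2 w.1)) := by
  obtain ⟨X, hX, i, hi, h1⟩ := h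
  refine ⟨runC K w.2 w.1 X, List.mem_map.2 ⟨X, hX, rfl⟩, i, hi, ?_⟩
  subst hK
  exact (fld_runC (n := 11) (N := n) (by norm_num) hok hi (X := X) (D := D) h1.symm).symm

/-- **the lanes of a chain** -/
theorem lanes_chain {n K : ℕ} (hK : K = 2 ^ 11 * n) {ws : List (ℕ × ℕ)}
    {σ : Equiv.Perm (Fin 13)} (hσ : ChP ws σ) {cs : List ℕ} {D : Fam}
    (h : cub 11 D ∈ Lanes n cs) : cub 11 (mapF σ D) ∈ Lanes n (chain K ws cs) := by
  induction ws generalizing cs D σ with
  | nil => exact absurd hσ id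
  | cons w ws ih =>
    obtain ⟨hok, hσ⟩ := hσ
    have h1 := lanes_map hK hok h
    rw [chain_cons, Pool.Agent.Helper20.TY.lanes_append]
    rcases hσ with rfl | ⟨τ, hτ, rfl⟩
    · exact Or.inl h1
    · rw [mapF_mul]
      exact Or.inr (ih hτ h1)

/-- the prefixes of the words contain `ρ * α` for every `α` -/
def ChainOK (ws : List (ℕ × ℕ)) (ρ : Equiv.Perm (Fin 13)) (A : Set (Equiv.Perm (Fin 13))) :
    Prop := ∀ α ∈ A, ChP ws (ρ * α)

/-- the prefixes of `ws`, started at the number `P`, are the word `(w, len)` after the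
permutations with the numbers `as` -/
noncomputable def chWords (w len : ℕ) : ℕ → List (ℕ × ℕ) → List ℕ → Bool
  | _, _, [] => true
  | _, [], _ :: _ => false
  | P, x :: ws, a :: as => okW 11 x.1 x.2 && (Nat.beq (runP x.1 P x.2) (runP w a len) &&
      chWords w len (runP x.1 P x.2) ws as)

theorem chWords_spec {w len : ℕ} (hw : okW 11 w len = true) : ∀ {ws : List (ℕ × ℕ)}
    {as : List ℕ} {P : ℕ} {π : Equiv.Perm (Fin 13)}, IsP P π → chWords w len P ws as = true →
      ∀ a ∈ as, ∀ α : Equiv.Perm (Fin 13), IsP a α →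
        ∃ σ, ChP ws σ ∧ σ * π = wpc (prs w len) * α
  | _, [], _, _, _, _, a, ha, _, _ => absurd ha List.not_mem_nil
  | [], _ :: _, _, _, _, h, _, _, _, _ => by
    unfold chWords at h
    exact absurd h Bool.false_ne_true
  | x :: ws, b :: as, P, π, hP, h, a, ha, α, hα => by
    have h' : (okW 11 x.1 x.2 && (Nat.beq (runP x.1 P x.2) (runP w b len) &&
      chWords w len (runP x.1 P x.2) ws as)) = true := h
    rw [Bool.and_eq_true, Bool.and_eq_true, Nat.beq_eq] at h'
    have h1 := isP_runP hP h'.1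
    rcases List.mem_cons.1 ha with rfl | ha
    · refine ⟨wpc (prs x.1 x.2), ⟨h'.1, Or.inl rfl⟩, ?_⟩
      have h2 := isP_runP hα hw
      rw [← h'.2.1] at h2
      exact h1.unique h2
    · obtain ⟨τ, hτ, h3⟩ := chWords_spec hw h1 h'.2.2 a ha α hα
      exact ⟨τ * wpc (prs x.1 x.2), ⟨h'.1, Or.inr ⟨τ, hτ, rfl⟩⟩, by rw [mul_assoc]; exact h3⟩

/-- the check of a chain against a list of automorphisms -/
theorem chainOK_of_chWords {w len : ℕ} (hw : okW 11 w len = true) {ws : List (ℕ × ℕ)}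
    {L : List (List ℕ)} {as : List ℕ} (hL : L.map (fun g => numL g 0) = as)
    (h : chWords w len idP ws as = true) {A : Set (Equiv.Perm (Fin 13))}
    (hA : ∀ α ∈ A, valL α ∈ L) : ChainOK ws (wpc (prs w len)) A := by
  intro α hα
  obtain ⟨σ, h1, h2⟩ := chWords_spec hw isP_one h (numL (valL α) 0)
    (by rw [← hL]; exact List.mem_map.2 ⟨_, hA α hα, rfl⟩) α (isP_numL rfl)
  rw [mul_one] at h2
  rw [← h2]
  exact h1

/-! ### bounds -/

theorem dswap_lt {K s M X : ℕ} (hX : X < 2 ^ K)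
    (hM : ∀ t, M.testBit t = true → t + s < K) : Pool.Agent.Helper91.TY.dswap s M X < 2 ^ K := by
  refine Nat.lt_pow_two_of_testBit _ fun g hg => ?_
  have e : Pool.Agent.Helper91.TY.dswap s M X =
    (X ^^^ (((X >>> s) ^^^ X) &&& M)) ^^^ ((((X >>> s) ^^^ X) &&& M) <<< s) := rfl
  have h1 : X.testBit g = false := Nat.testBit_lt_two_pow
    (lt_of_lt_of_le hX (Nat.pow_le_pow_right (by norm_num) hg))
  have h2 : M.testBit g = false := by
    by_contra h
    have := hM g (by simpa using h)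
    omega
  rw [e, Nat.testBit_xor, Nat.testBit_xor, Nat.testBit_and, Nat.testBit_shiftLeft,
    Nat.testBit_and, h1, h2, Bool.and_false, Bool.false_xor, Bool.false_xor]
  by_cases h3 : g ≥ s
  · have h4 : M.testBit (g - s) = false := by
      by_contra h
      have := hM (g - s) (by simpa using h)
      omega
    rw [h4, Bool.and_false, Bool.and_false]
  · rw [decide_eq_false h3, Bool.false_and]

theorem cswap_lt {K i j X : ℕ} (hij : i < j) (hK : 2 ^ (j + 1) ∣ K) (hX : X < 2 ^ K) :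
    Pool.Agent.Helper91.TY.cswap i j (Pool.Agent.Helper91.TY.ib K i)
      (Pool.Agent.Helper91.TY.ib K j) X < 2 ^ K := by
  have hKi : 2 ^ (i + 1) ∣ K := dvd_trans (pow_dvd_pow 2 (by omega)) hK
  refine dswap_lt hX fun t ht => ?_
  have e : Nat.land (Pool.Agent.Helper91.TY.ib K i) (Nat.xor (Pool.Agent.Helper91.TY.ib K i)
      (Pool.Agent.Helper91.TY.ib K j)) = (Pool.Agent.Helper91.TY.ib K i) &&&
        ((Pool.Agent.Helper91.TY.ib K i) ^^^ (Pool.Agent.Helper91.TY.ib K j)) := rfl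
  rw [e, Nat.testBit_and, Nat.testBit_xor, Pool.Agent.Helper91.TY.testBit_ib hKi,
    Pool.Agent.Helper91.TY.testBit_ib hK] at ht
  have h1 : t < K := by
    by_contra h
    rw [decide_eq_false h] at ht
    simp at ht
  rw [decide_eq_true h1, Bool.true_and, Bool.true_and, Bool.and_eq_true] at ht
  obtain ⟨h2, h3⟩ := ht
  rw [h2, Bool.true_xor, Bool.not_eq_true'] at h3
  have hsub : Nat.sub (Nat.pow 2 j) (Nat.pow 2 i) = 2 ^ j - 2 ^ i := rfl
  rw [hsub, Pool.Agent.Helper91.TY.sidx_add hij h2 h3]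
  -- the new index stays in the block of length `2 ^ (j + 1)`
  obtain ⟨q, rfl⟩ := hK
  have h4 : t % 2 ^ (j + 1) < 2 ^ (j + 1) := Nat.mod_lt _ (Nat.two_pow_pos _)
  have h5 := Nat.div_add_mod t (2 ^ (j + 1))
  have h6 : t / 2 ^ (j + 1) < q := Nat.div_lt_of_lt_mul h1
  have h7 : Pool.Agent.Helper91.TY.sidx i j (t % 2 ^ (j + 1)) < 2 ^ (j + 1) :=
    Pool.Agent.Helper91.TY.sidx_lt (by omega) (by omega) h4
  have h8 := Pool.Agent.Helper91.TY.sidx_add hij h2 h3
  have h9 : (t % 2 ^ (j + 1)).testBit i = true := by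
    rw [Nat.testBit_mod_two_pow, h2]
    simp
    omega
  have h10 : (t % 2 ^ (j + 1)).testBit j = false := by
    rw [Nat.testBit_mod_two_pow, h3, Bool.and_false]
  have h11 := Pool.Agent.Helper91.TY.sidx_add hij h9 h10
  rw [← h8]
  have h12 : 2 ^ (j + 1) * (t / 2 ^ (j + 1)) + 2 ^ (j + 1) ≤ 2 ^ (j + 1) * q := by
    have := Nat.mul_le_mul_left (2 ^ (j + 1)) (Nat.succ_le_of_lt h6)
    rwa [Nat.mul_succ] at this
  omega

theorem runC_lt {n N w : ℕ} {X : ℕ} (hX : X < 2 ^ (2 ^ n * N)) :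
    ∀ {len : ℕ}, okW n w len = true → runC (2 ^ n * N) len w X < 2 ^ (2 ^ n * N)
  | 0, _ => hX
  | len + 1, hw => by
    have h' : (okW n w len && (Nat.blt (Pool.Agent.Helper91.TY.dig8 w len % 16)
      (Pool.Agent.Helper91.TY.dig8 w len / 16) &&
      (Nat.blt (Pool.Agent.Helper91.TY.dig8 w len / 16) n &&
        Nat.blt (Pool.Agent.Helper91.TY.dig8 w len / 16) 13))) = true := hw
    rw [Bool.and_eq_true, Bool.and_eq_true, Bool.and_eq_true, Nat.blt_eq, Nat.blt_eq,
      Nat.blt_eq] at h'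
    obtain ⟨h1, h2, h3, h4⟩ := h'
    have e0 : runC (2 ^ n * N) (len + 1) w X =
        Pool.Agent.Helper91.TY.frc (fun d => Pool.Agent.Helper91.TY.cstep (2 ^ n * N) d
          (runC (2 ^ n * N) len w X)) (Pool.Agent.Helper91.TY.dig8 w len) := rfl
    rw [e0, Pool.Agent.Helper91.TY.frc_eq]
    have h5 : 2 ^ (Pool.Agent.Helper91.TY.dig8 w len / 16 + 1) ∣ 2 ^ n * N :=
      dvd_trans (pow_dvd_pow 2 (by omega)) (Dvd.intro _ rfl)
    exact cswap_lt (i := Pool.Agent.Helper91.TY.dig8 w len % 16)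
      (j := Pool.Agent.Helper91.TY.dig8 w len / 16) h2 h5 (runC_lt hX h1)

theorem chain_lt {n : ℕ} {ws : List (ℕ × ℕ)} (hok : ∀ x ∈ ws, okW 11 x.1 x.2 = true) :
    ∀ {cs : List ℕ}, (∀ X ∈ cs, X < 2 ^ (2 ^ 11 * n)) →
      ∀ X ∈ chain (2 ^ 11 * n) ws cs, X < 2 ^ (2 ^ 11 * n) := by
  induction ws with
  | nil =>
    intro cs _ X hX
    exact absurd hX List.not_mem_nil
  | cons w ws ih =>
    intro cs hcs X hX
    rw [chain_cons] at hX
    have h1 : ∀ X ∈ cs.map (runC (2 ^ 11 * n) w.2 w.1), X < 2 ^ (2 ^ 11 * n) := by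
      intro X hX
      obtain ⟨Y, hY, rfl⟩ := List.mem_map.1 hX
      exact runC_lt (hcs Y hY) (hok w List.mem_cons_self)
    rcases List.mem_append.1 hX with hX | hX
    · exact h1 X hX
    · exact ih (fun x hx => hok x (List.mem_cons_of_mem _ hx)) h1 X hX

/-! ### glued chunks -/

/-- glue two by two; `s` = length of a chunk in bits, `J` is put above a single last chunk;
`b = true`: the chunk `Y` waits for a partner -/
def gluA (s J : ℕ) (cs : List ℕ) : Bool → ℕ → List ℕ :=
  @List.rec ℕ (fun _ => Bool → ℕ → List ℕ)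
    (fun b Y => @Bool.rec (fun _ => List ℕ) [] [Nat.lor (Nat.shiftLeft J s) Y] b)
    (fun X _ ih b Y => @Bool.rec (fun _ => List ℕ) (ih true X)
      (Nat.lor (Nat.shiftLeft X s) Y :: ih false 0) b) cs

/-- the glued list -/
def glu (s J : ℕ) (cs : List ℕ) : List ℕ := gluA s J cs false 0

theorem fld_glu {s n : ℕ} (hs : s = 2048 * n) {Y : ℕ} (hY : Y < 2 ^ (2048 * n)) (X i : ℕ) :
    fld 2048 (Nat.lor (Nat.shiftLeft X s) Y) i =
      if i < n then fld 2048 Y i else fld 2048 X (i - n) := by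
  subst hs
  have e : Nat.lor (Nat.shiftLeft X (2048 * n)) Y = (X <<< (2048 * n)) ||| Y := rfl
  rw [e]
  refine Nat.eq_of_testBit_eq fun j => ?_
  by_cases hj : j < 2048
  · rw [testBit_fld hj, Nat.testBit_or, Nat.testBit_shiftLeft]
    split_ifs with h
    · rw [testBit_fld hj, decide_eq_false (show ¬ 2048 * i + j ≥ 2048 * n by omega),
        Bool.false_and, Bool.false_or]
    · rw [testBit_fld hj, decide_eq_true (show 2048 * i + j ≥ 2048 * n by omega),
        Bool.true_and, Nat.testBit_eq_false_of_lt (lt_of_lt_of_le hY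
          (Nat.pow_le_pow_right (by norm_num) (show 2048 * n ≤ 2048 * i + j by omega))),
        Bool.or_false]
      congr 1
      omega
  · rw [testBit_fld_ge (by omega)]
    split_ifs <;> rw [testBit_fld_ge (by omega)]

theorem lanes_gluA {s n J : ℕ} (hs : s = 2048 * n) {cs : List ℕ} :
    (∀ X ∈ cs, X < 2 ^ (2048 * n)) → ∀ Y, Y < 2 ^ (2048 * n) →
      Lanes n cs ⊆ Lanes (2 * n) (gluA s J cs false 0) ∧
      Lanes n (Y :: cs) ⊆ Lanes (2 * n) (gluA s J cs true Y) := by
  induction cs with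
  | nil =>
    intro _ Y hY
    refine ⟨?_, ?_⟩
    · rintro u ⟨X, hX, _⟩
      exact absurd hX List.not_mem_nil
    · rintro u ⟨X, hX, i, hi, rfl⟩
      rw [List.mem_singleton] at hX
      subst hX
      refine ⟨_, List.mem_singleton.2 rfl, i, by omega, ?_⟩
      rw [fld_glu hs hY, if_pos hi]
  | cons Z cs ih =>
    intro hcs Y hY
    have hZ := hcs Z List.mem_cons_self
    have h1 := ih (fun X hX => hcs X (List.mem_cons_of_mem _ hX)) Z hZ
    refine ⟨h1.2, ?_⟩
    have e : gluA s J (Z :: cs) true Y = Nat.lor (Nat.shiftLeft Z s) Y :: gluA s J cs false 0 := rfl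
    rw [e]
    rintro u ⟨X, hX, i, hi, rfl⟩
    rcases List.mem_cons.1 hX with rfl | hX
    · refine ⟨_, List.mem_cons_self, i, by omega, ?_⟩
      rw [fld_glu hs hY, if_pos hi]
    · rcases List.mem_cons.1 hX with rfl | hX
      · refine ⟨_, List.mem_cons_self, n + i, by omega, ?_⟩
        rw [fld_glu hs hY, if_neg (by omega), Nat.add_sub_cancel_left]
      · obtain ⟨X', hX', i', hi', h2⟩ := h1.1 ⟨X, hX, i, hi, rfl⟩
        exact ⟨X', List.mem_cons_of_mem _ hX', i', hi', h2⟩

/-- **the lanes of a glued list** -/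
theorem lanes_glu {s n J : ℕ} (hs : s = 2048 * n) {cs : List ℕ}
    (h : ∀ X ∈ cs, X < 2 ^ (2048 * n)) : Lanes n cs ⊆ Lanes (2 * n) (glu s J cs) :=
  (lanes_gluA hs h 0 (Nat.two_pow_pos _)).1

end Pool.Agent.Helper63.TY
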