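import Pool.Agent.Helper74.TY.XExt

/-!
MP_8ee768_co, project TH-Y', star engine, piece (e): the composition.

Continuation form (helper91): a step `f : Cb` gets a state `s` and a continuation `c`; `Acc P f`
says that `f s c = true` implies `P` and that `c` was `true` at some state. `starChk` joins two
lists of chunks (`n` lanes of `L` bits): for every pair of chunks the step `pr` visits the pairs of
lanes with equal keys and calls `cb u v` for the two lanes. All pieces are parameters; `star_sound`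
is the soundness theorem.
-/

set_option autoImplicit false

namespace Pool.Agent.Helper63.TY

open Pool.Agent.Helper63.SIMD
open Pool.Agent.Helper74.TY (frc frc_eq)

/-- a step with state and continuation -/
abbrev Cb := ℕ → (ℕ → Bool) → Bool

/-- acceptance of the step `f` proves `P` -/
def Acc (P : Prop) (f : Cb) : Prop := ∀ s c, f s c = true → P ∧ ∃ s', c s' = true

theorem Acc.mono {P Q : Prop} {f : Cb} (h : Acc P f) (hPQ : P → Q) : Acc Q f :=
  fun s c hs => ⟨hPQ (h s c hs).1, (h s c hs).2⟩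

theorem acc_imp {P Q : Prop} {f : Cb} (h : P → Acc Q f) (h' : Acc True f) : Acc (P → Q) f := by
  intro s c hs
  exact ⟨fun hp => (h hp s c hs).1, (h' s c hs).2⟩

/-- nothing to do -/
def skip : Cb := fun s c => c s

theorem acc_skip : Acc True skip := fun s _ h => ⟨trivial, s, h⟩

/-- one step after another -/
def seq (f g : Cb) : Cb := fun s c => f s fun s' => g s' c

theorem acc_seq {P Q : Prop} {f g : Cb} (hf : Acc P f) (hg : Acc Q g) : Acc (P ∧ Q) (seq f g) := by
  intro s c h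
  obtain ⟨h1, s', h2⟩ := hf s _ h
  obtain ⟨h3, h4⟩ := hg s' c h2
  exact ⟨⟨h1, h3⟩, h4⟩

theorem acc_frc {P : Prop} (v : ℕ) {f : ℕ → Cb} (h : Acc P (f v)) :
    Acc P (fun s c => frc v fun v' => f v' s c) := by
  intro s c hs
  simp only [frc_eq] at hs
  exact h s c hs

/-- the steps of a list, the state is evaluated after each step -/
def loopL {α : Type} (f : α → Cb) (l : List α) : Cb :=
  @List.rec α (fun _ => Cb) (fun s c => c s)
    (fun a _ ih s c => f a s fun s' => frc s' fun s'' => ih s'' c) l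

theorem loopL_nil {α : Type} (f : α → Cb) (s : ℕ) (c : ℕ → Bool) : loopL f [] s c = c s := rfl

theorem loopL_cons {α : Type} (f : α → Cb) (a : α) (l : List α) (s : ℕ) (c : ℕ → Bool) :
    loopL f (a :: l) s c = f a s fun s' => loopL f l s' c := by
  show (f a s fun s' => frc s' fun s'' => loopL f l s'' c) = _
  simp only [frc_eq]

theorem acc_loopL {α : Type} {P : α → Prop} {f : α → Cb} {l : List α}
    (h : ∀ a ∈ l, Acc (P a) (f a)) : Acc (∀ a ∈ l, P a) (loopL f l) := by
  induction l with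
  | nil =>
    intro s c hs
    exact ⟨fun a ha => absurd ha (by simp), s, hs⟩
  | cons a l ih =>
    intro s c hs
    rw [loopL_cons] at hs
    obtain ⟨h1, s', h2⟩ := h a (by simp) s _ hs
    obtain ⟨h3, h4⟩ := ih (fun b hb => h b (by simp [hb])) s' c h2
    refine ⟨fun b hb => ?_, h4⟩
    rcases List.mem_cons.1 hb with rfl | hb
    · exact h1
    · exact h3 b hb

/-! ### lanes -/

/-- lane `i` of the chunk `A` in the form of the kernel, `M = 2 ^ L - 1` -/
def ln (L M A i : ℕ) : ℕ := Nat.land (Nat.shiftRight A (Nat.mul L i)) M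

theorem ln_eq (L A i : ℕ) : ln L (2 ^ L - 1) A i = fld L A i := by
  show (A >>> (L * i)) &&& (2 ^ L - 1) = A / 2 ^ (L * i) % 2 ^ L
  rw [Nat.and_two_pow_sub_one_eq_mod, Nat.shiftRight_eq_div_pow]

/-! ### the join -/

section
variable (L n : ℕ) (kY kZ : ℕ → ℕ) (pr : ℕ → ℕ → (ℕ → Cb) → Cb) (cb : ℕ → ℕ → Cb)

/-- the callback at the position `k = n * i + j` of the matrix -/
def atPos (M Y Z k : ℕ) : Cb := fun s c =>
  frc (ln L M Y (Nat.div k n)) fun u => frc (ln L M Z (Nat.mod k n)) fun v => cb u v s c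

/-- the list of chunks with their keys -/
def mkK (kZ : ℕ → ℕ) (zs : List ℕ) : (List (ℕ × ℕ) → Bool) → Bool :=
  @List.rec ℕ (fun _ => (List (ℕ × ℕ) → Bool) → Bool) (fun c => c [])
    (fun z _ ih c => frc (kZ z) fun k => ih fun l => c ((z, k) :: l)) zs

theorem mkK_eq (kZ : ℕ → ℕ) (zs : List ℕ) (c : List (ℕ × ℕ) → Bool) :
    mkK kZ zs c = c (zs.map fun z => (z, kZ z)) := by
  induction zs generalizing c with
  | nil => rfl
  | cons z zs ih =>
    show (frc (kZ z) fun k => mkK kZ zs fun l => c ((z, k) :: l)) = _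
    rw [frc_eq, ih]
    rfl

/-- one chunk of `y` against the list of `z` -/
def rowChk (M : ℕ) (zl : List (ℕ × ℕ)) (Y : ℕ) : Cb := fun s c =>
  frc (kY Y) fun KY => loopL (fun p => pr KY p.2 (atPos L n cb M Y p.1)) zl s c

/-- the join of two lists of chunks -/
def starChk (ys zs : List ℕ) : Cb := fun s c =>
  frc (Nat.sub (Nat.pow 2 L) 1) fun M =>
    mkK kZ zs fun zl => loopL (rowChk L n kY pr cb M zl) ys s c

/-- the law of the pair step: all agreeing pairs are visited -/
def Visits (G : ℕ → Prop) (R : ℕ → ℕ → Prop) : Prop :=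
  ∀ Y Z, G Y → G Z → ∀ (P : ℕ → ℕ → Prop) (f : ℕ → Cb),
    (∀ i j, i < n → j < n → Acc (P i j) (f (n * i + j))) → (∀ k, Acc True (f k)) →
      Acc (∀ i j, i < n → j < n → R (fld L Y i) (fld L Z j) → P i j) (pr (kY Y) (kZ Z) f)

/-- `R` says that two lanes agree, `D` that they are impossible -/
theorem acc_star {G : ℕ → Prop} {R D : ℕ → ℕ → Prop} (hv : Visits L n kY kZ pr G R)
    (hcb : ∀ u v, Acc (R u v → D u v) (cb u v)) {ys zs : List ℕ}
    (hys : ∀ Y ∈ ys, G Y) (hzs : ∀ Z ∈ zs, G Z) :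
    Acc (∀ Y ∈ ys, ∀ Z ∈ zs, ∀ i < n, ∀ j < n, R (fld L Y i) (fld L Z j) →
      D (fld L Y i) (fld L Z j)) (starChk L n kY kZ pr cb ys zs) := by
  intro s c h
  unfold starChk at h
  rw [frc_eq, mkK_eq] at h
  have eM : Nat.sub (Nat.pow 2 L) 1 = 2 ^ L - 1 := rfl
  rw [eM] at h
  refine acc_loopL (fun Y hY => ?_) s c h
  intro s c h
  unfold rowChk at h
  rw [frc_eq] at h
  have h2 := acc_loopL (P := fun p : ℕ × ℕ => ∀ i j, i < n → j < n →
    R (fld L Y i) (fld L p.1 j) → R (fld L Y i) (fld L p.1 j) →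
      D (fld L Y i) (fld L p.1 j)) (l := zs.map fun z => (z, kZ z)) ?_ s c h
  · refine ⟨fun Z hZ i hi j hj hR => ?_, h2.2⟩
    exact h2.1 (Z, kZ Z) (List.mem_map.2 ⟨Z, hZ, rfl⟩) i j hi hj hR hR
  · intro p hp
    obtain ⟨Z, hZ, rfl⟩ := List.mem_map.1 hp
    have hat : ∀ k, Acc (R (fld L Y (k / n)) (fld L Z (k % n)) →
        D (fld L Y (k / n)) (fld L Z (k % n))) (atPos L n cb (2 ^ L - 1) Y Z k) := by
      intro k s c h
      unfold atPos at h
      rw [frc_eq, frc_eq, ln_eq, ln_eq] at h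
      exact hcb _ _ s c h
    refine hv Y Z (hys Y hY) (hzs Z hZ) _ _ (fun i j hi hj => ?_) fun k => (hat k).mono fun _ => trivial
    have h5 := hat (n * i + j)
    have e1 : (n * i + j) / n = i := by
      rw [Nat.mul_add_div (by omega), Nat.div_eq_of_lt hj, Nat.add_zero]
    have e2 : (n * i + j) % n = j := by
      rw [Nat.mul_add_mod, Nat.mod_eq_of_lt hj]
    rw [e1, e2] at h5
    exact h5

/-- the check, from the state `s0` -/
def starTop (ys zs : List ℕ) (s0 : ℕ) : Bool :=
  starChk L n kY kZ pr cb ys zs s0 fun _ => true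

/-- SOUNDNESS of the star engine -/
theorem star_sound {G : ℕ → Prop} {R D : ℕ → ℕ → Prop} (hv : Visits L n kY kZ pr G R)
    (hcb : ∀ u v, Acc (R u v → D u v) (cb u v)) {ys zs : List ℕ}
    (hys : ∀ Y ∈ ys, G Y) (hzs : ∀ Z ∈ zs, G Z) {s0 : ℕ}
    (h : starTop L n kY kZ pr cb ys zs s0 = true) :
    ∀ Y ∈ ys, ∀ Z ∈ zs, ∀ i < n, ∀ j < n, R (fld L Y i) (fld L Z j) →
      D (fld L Y i) (fld L Z j) :=
  (acc_star L n kY kZ pr cb hv hcb hys hzs s0 _ h).1

end

end Pool.Agent.Helper63.TY
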