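import Pool.Agent.Helper63.TY.FrameJ
import Pool.Agent.Helper38.TY.Key

/-!
MP_8ee768_co, project TH-Y', star engine for long lists: chunks of 128 lanes of 2048 bits, keys of
15 bits in fields of 16 bits (six irregular folds of the upper half, helper38).
-/

set_option autoImplicit false
set_option exponentiation.threshold 300000

namespace Pool.Agent.Helper63.TY

open Pool.Agent.Helper63.SIMD
open Pool.Agent.Helper74.TY (frc frc_eq)

/-- the fold of the upper half to 15 bits (no lambda here: the nested terms are shared by the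
cache of the kernel, beta redexes are not) -/
def fold16 (x : ℕ) : ℕ :=
  fs 14 (fs 26 (fs 51 (fs 92 (fs 190 (fs 521 (Nat.shiftRight x 1024))))))

/-- the key of a lane -/
def gK16 (u : ℕ) : ℕ := fold16 u % 2 ^ 15

theorem gK16_lt (u : ℕ) : gK16 u < 2 ^ (16 - 1) := Nat.mod_lt _ (by norm_num)

theorem fold16_agree {x y a b : ℕ}
    (h : ∀ s, s < 1023 → x.testBit (a + (1024 + s)) = y.testBit (b + (1024 + s))) :
    ∀ s, s < 15 → (fold16 x).testBit (a + s) = (fold16 y).testBit (b + s) := by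
  unfold fold16
  have h0 : ∀ s, s < 502 + 521 → (Nat.shiftRight x 1024).testBit (a + s) =
      (Nat.shiftRight y 1024).testBit (b + s) := by
    intro s hs
    show (x >>> 1024).testBit (a + s) = (y >>> 1024).testBit (b + s)
    rw [Nat.testBit_shiftRight, Nat.testBit_shiftRight,
      show 1024 + (a + s) = a + (1024 + s) by omega,
      show 1024 + (b + s) = b + (1024 + s) by omega]
    exact h s (by omega)
  have h1 := fs_agree (n := 502) (d := 521) h0
  have h2 := fs_agree (n := 312) (d := 190) (fun s hs => h1 s (by omega))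
  have h3 := fs_agree (n := 220) (d := 92) (fun s hs => h2 s (by omega))
  have h4 := fs_agree (n := 169) (d := 51) (fun s hs => h3 s (by omega))
  have h5 := fs_agree (n := 143) (d := 26) (fun s hs => h4 s (by omega))
  have h6 := fs_agree (n := 129) (d := 14) (fun s hs => h5 s (by omega))
  intro s hs
  exact h6 s (by omega)

theorem gK16_agree {u v : ℕ} (h : Agree u v) : gK16 u = gK16 v := by
  refine Nat.eq_of_testBit_eq fun t => ?_
  unfold gK16
  rw [Nat.testBit_mod_two_pow, Nat.testBit_mod_two_pow]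
  by_cases ht : t < 15
  · have h1 := fold16_agree (a := 0) (b := 0) (x := u) (y := v)
      (fun s hs => by simpa using h s hs) t ht
    simp only [Nat.zero_add] at h1
    rw [h1]
  · simp [ht]

/-- the keys in the lanes -/
def keyRow16 (m x : ℕ) : ℕ := Nat.land (fold16 x) m

/-- the mask of the keys -/
def mK16 : ℕ := 32767 * rep 2048 128

theorem mK16_eq : mK16 = pk 2048 128 (fun _ => 2 ^ 15 - 1) := mul_rep (by norm_num) _

theorem small16 : (2 : ℕ) ^ 15 - 1 < 2 ^ 2048 := lt_of_lt_of_le (by norm_num : 2 ^ 15 - 1 < 2 ^ 15)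
  (Nat.pow_le_pow_right (by norm_num) (by norm_num))

theorem keyRow16_eq (Y : ℕ) : keyRow16 mK16 Y = pk 2048 128 (fun i => gK16 (fld 2048 Y i)) := by
  have hlt : ∀ i < 128, gK16 (fld 2048 Y i) < 2 ^ 2048 := fun i _ =>
    lt_of_lt_of_le (gK16_lt _) (Nat.pow_le_pow_right (by norm_num) (by norm_num))
  have hm : mK16 < 2 ^ (2048 * 128) := by
    rw [mK16_eq]
    exact pk_lt fun i _ => small16
  refine eq_of_fld (W := 2048) (n := 128) (lt_of_le_of_lt Nat.and_le_right hm) (pk_lt hlt)
    fun i hi => ?_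
  rw [fld_pk hlt hi]
  refine Nat.eq_of_testBit_eq fun t => ?_
  unfold gK16
  rw [Nat.testBit_mod_two_pow]
  by_cases h1 : t < 2048
  · rw [testBit_fld h1]
    show (fold16 Y &&& mK16).testBit (2048 * i + t) = _
    have h2 : mK16.testBit (2048 * i + t) = decide (t < 15) := by
      rw [← testBit_fld h1, mK16_eq, fld_pk (fun j _ => small16) hi, Nat.testBit_two_pow_sub_one]
    rw [Nat.testBit_and, h2]
    by_cases h3 : t < 15
    · have h4 := fold16_agree (a := 2048 * i) (b := 0) (x := Y) (y := fld 2048 Y i)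
        (fun s hs => by rw [Nat.zero_add, testBit_fld (by omega)]) t h3
      rw [Nat.zero_add] at h4
      simp [h3, h4]
    · simp [h3]
  · rw [testBit_fld_ge (Nat.not_lt.1 h1)]
    have h3 : ¬ t < 15 := by omega
    simp [h3]

/-- the key number of a row chunk: `m = mK16`, `r = rep 16 128` -/
def kRow16 (m r Y : ℕ) : ℕ := Nat.mul (keyRow16 m Y) r

/-- the key number of a column chunk: `m = mK16`, `r = rep 2048 128`, `q = 2 ^ 2048 - 2 ^ 16` -/
def kCol16 (m r q Z : ℕ) : ℕ := Nat.mul r (Nat.mod (keyRow16 m Z) q)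

/-- the pair step: `M = (2 ^ 15 - 1) * rep 16 16384`, `H = 2 ^ 15 * rep 16 16384` -/
def prS16 (M H A B : ℕ) (f : ℕ → Cb) : Cb := fun s c =>
  Pool.Agent.Helper91.TY.outer M 15 65535 f 16385 H A B s c

theorem top_testBit16 {k : ℕ} (hk : k < 16384) :
    (2 ^ 15 * rep 16 16384).testBit (16 * k + 15) = true := by
  rw [← testBit_fld (by norm_num), mul_rep (by norm_num), fld_pk (fun i _ => by norm_num) hk]
  decide

theorem cmp16_eq {a : ℕ → ℕ} (ha : ∀ i < 128, a i < 2 ^ (16 - 1)) :
    Pool.Agent.Helper38.TY.keyC (2 ^ 2048 - 2 ^ 16) (pk 2048 128 a) = pk 16 128 a := by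
  have h1 := Pool.Agent.Helper38.TY.keyC_eq (W := 16) (N' := 128) (by norm_num) (by norm_num) ha
  rw [show 16 * 128 = 2048 from rfl] at h1
  exact h1

theorem visits_prS16 : Visits 2048 128 (kRow16 mK16 (rep 16 128))
    (kCol16 mK16 (rep 2048 128) (2 ^ 2048 - 2 ^ 16))
    (prS16 ((2 ^ 15 - 1) * rep 16 16384) (2 ^ 15 * rep 16 16384)) (fun _ => True) Agree := by
  intro Y Z _ _ P f hP hT
  have hf : ∀ k, Pool.Agent.Helper91.TY.Acc
      (∀ i j, i < 128 → j < 128 → k = 128 * i + j → P i j) (f k) := by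
    intro k s c h
    refine ⟨fun i j hi hj hk => ?_, (hT k s c h).2⟩
    rw [hk] at h
    exact (hP i j hi hj s c h).1
  intro s c h
  have e1 : kRow16 mK16 (rep 16 128) Y =
      pk (16 * 128) 128 (fun i => gK16 (fld 2048 Y i)) * rep 16 128 := by
    show keyRow16 mK16 Y * rep 16 128 = _
    rw [keyRow16_eq]
  have e2 : kCol16 mK16 (rep 2048 128) (2 ^ 2048 - 2 ^ 16) Z =
      rep (16 * 128) 128 * pk 16 128 (fun i => gK16 (fld 2048 Z i)) := by
    have h0 : kCol16 mK16 (rep 2048 128) (2 ^ 2048 - 2 ^ 16) Z =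
      rep 2048 128 * Pool.Agent.Helper38.TY.keyC (2 ^ 2048 - 2 ^ 16) (keyRow16 mK16 Z) := rfl
    rw [h0, keyRow16_eq, cmp16_eq fun i _ => gK16_lt _]
  rw [e1, e2] at h
  obtain ⟨h1, h2⟩ := Pool.Agent.Helper91.TY.outer_rows_cols (W := 16) (N := 128) (N' := 128)
    (by norm_num) (by norm_num) (by norm_num) (fun i _ => gK16_lt _) (fun j _ => gK16_lt _) hf h
  refine ⟨fun i j hi hj hR => ?_, h2⟩
  exact h1 i hi j hj (top_testBit16 (by omega)) (gK16_agree hR) i j hi hj rfl

/-- THE STAR ENGINE for 128-lane chunks -/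
def star16 (cb : ℕ → ℕ → Cb) (ys zs : List ℕ) : Cb := fun s c =>
  frc mK16 fun m => frc (rep 16 128) fun r => frc (rep 2048 128) fun r' =>
    frc (2 ^ 2048 - 2 ^ 16) fun q => frc ((2 ^ 15 - 1) * rep 16 16384) fun M =>
      frc (2 ^ 15 * rep 16 16384) fun H =>
        starChk 2048 128 (kRow16 m r) (kCol16 m r' q) (prS16 M H) cb ys zs s c

/-- SOUNDNESS of the engine, as a step -/
theorem join_of_star16 {D : ℕ → ℕ → Prop} {cb : ℕ → ℕ → Cb}
    (hcb : ∀ u v, Acc (Agree u v → D u v) (cb u v)) (ys zs : List ℕ) :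
    Acc (Join 128 D ys zs) (star16 cb ys zs) := by
  intro s c h
  unfold star16 at h
  simp only [frc_eq] at h
  have h1 := acc_star 2048 128 _ _ _ cb visits_prS16 hcb (fun _ _ => trivial)
    (fun _ _ => trivial) s c h
  exact ⟨join_of_all h1.1, h1.2⟩

end Pool.Agent.Helper63.TY
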