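import Pool.Agent.Helper63.TY.Hit3
import Pool.Agent.Helper63.TY.Key16

/-!
MP_8ee768_co, project TH-Y', star engine with the cheap decoding of hits (`Hit3`).

* `star2 cb ys zs`: chunks of 128 lanes, matrix keys of 15 bits, long keys of 31 bits;
* `star2s cb ys zs`: chunks of 64 lanes, keys of 31 bits, order of the hits: lane `j` of the second
  chunk, then lane `i` of the first one;
* `star4 cb ys zs`: the same with the order of `star`: `64 i + j` ascending.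
-/

set_option autoImplicit false
set_option exponentiation.threshold 300000

namespace Pool.Agent.Helper63.TY

open Pool.Agent.Helper63.SIMD
open Pool.Agent.Helper74.TY (frc frc_eq)

/-! ### the composition -/

section
variable (L n : ℕ) (rK rC cK cC : ℕ → ℕ) (pr : ℕ → ℕ → ℕ → ℕ → (ℕ → ℕ → Cb) → Cb)
  (cb : ℕ → ℕ → Cb)

/-- the callback for the lanes `i`, `j` -/
def at2 (M Y Z i j : ℕ) : Cb := fun s c => cb (ln L M Y i) (ln L M Z j) s c

/-- the chunks of the columns with their two key numbers -/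
def mkK2 (zs : List ℕ) : (List (ℕ × ℕ × ℕ) → Bool) → Bool :=
  @List.rec ℕ (fun _ => (List (ℕ × ℕ × ℕ) → Bool) → Bool) (fun c => c [])
    (fun z _ ih c => frc (cK z) fun k => frc (cC z) fun k' => ih fun l => c ((z, k, k') :: l)) zs

theorem mkK2_eq (zs : List ℕ) (c : List (ℕ × ℕ × ℕ) → Bool) :
    mkK2 cK cC zs c = c (zs.map fun z => (z, cK z, cC z)) := by
  induction zs generalizing c with
  | nil => rfl
  | cons z zs ih =>
    show (frc (cK z) fun k => frc (cC z) fun k' => mkK2 cK cC zs fun l => c ((z, k, k') :: l)) = _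
    rw [frc_eq, frc_eq, ih]
    rfl

/-- one chunk of the rows against the list of the columns -/
def row2 (M : ℕ) (zl : List (ℕ × ℕ × ℕ)) (Y : ℕ) : Cb := fun s c =>
  frc (rK Y) fun A => frc (rC Y) fun a =>
    loopL (fun p => pr A a p.2.1 p.2.2 (at2 L cb M Y p.1)) zl s c

/-- the join of two lists of chunks -/
def chk2 (ys zs : List ℕ) : Cb := fun s c =>
  frc (Nat.sub (Nat.pow 2 L) 1) fun M =>
    mkK2 cK cC zs fun zl => loopL (row2 L rK rC pr cb M zl) ys s c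

/-- the law of the pair step -/
def Visits2 (R : ℕ → ℕ → Prop) : Prop :=
  ∀ (Y Z : ℕ) (P : ℕ → ℕ → Prop) (f : ℕ → ℕ → Cb),
    (∀ i j, i < n → j < n → Acc (P i j) (f i j)) → (∀ i j, Acc True (f i j)) →
      Acc (∀ i j, i < n → j < n → R (fld L Y i) (fld L Z j) → P i j)
        (pr (rK Y) (rC Y) (cK Z) (cC Z) f)

theorem acc_chk2 {R D : ℕ → ℕ → Prop} (hv : Visits2 L n rK rC cK cC pr R)
    (hcb : ∀ u v, Acc (R u v → D u v) (cb u v)) (ys zs : List ℕ) :
    Acc (∀ Y ∈ ys, ∀ Z ∈ zs, ∀ i < n, ∀ j < n, R (fld L Y i) (fld L Z j) →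
      D (fld L Y i) (fld L Z j)) (chk2 L rK rC cK cC pr cb ys zs) := by
  intro s c h
  unfold chk2 at h
  rw [frc_eq, mkK2_eq] at h
  have eM : Nat.sub (Nat.pow 2 L) 1 = 2 ^ L - 1 := rfl
  rw [eM] at h
  refine acc_loopL (fun Y hY => ?_) s c h
  intro s c h
  unfold row2 at h
  rw [frc_eq, frc_eq] at h
  have h2 := acc_loopL (P := fun p : ℕ × ℕ × ℕ => ∀ i j, i < n → j < n →
    R (fld L Y i) (fld L p.1 j) → R (fld L Y i) (fld L p.1 j) → D (fld L Y i) (fld L p.1 j))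
    (l := zs.map fun z => (z, cK z, cC z)) ?_ s c h
  · refine ⟨fun Z hZ i hi j hj hR => ?_, h2.2⟩
    exact h2.1 (Z, cK Z, cC Z) (List.mem_map.2 ⟨Z, hZ, rfl⟩) i j hi hj hR hR
  · intro p hp
    obtain ⟨Z, _, rfl⟩ := List.mem_map.1 hp
    have hat : ∀ i j, Acc (R (fld L Y i) (fld L Z j) → D (fld L Y i) (fld L Z j))
        (at2 L cb (2 ^ L - 1) Y Z i j) := by
      intro i j s c h
      unfold at2 at h
      rw [ln_eq, ln_eq] at h
      exact hcb _ _ s c h
    exact hv Y Z _ _ (fun i j _ _ => hat i j) fun i j => (hat i j).mono fun _ => trivial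

end

/-! ### keys -/

/-- the long key of a lane -/
def gX (u : ℕ) : ℕ := fold16 u % 2 ^ 31

theorem gX_lt (u : ℕ) : gX u < 2 ^ 31 := Nat.mod_lt _ (by norm_num)

theorem foldX_agree {x y a b : ℕ}
    (h : ∀ s, s < 1023 → x.testBit (a + (1024 + s)) = y.testBit (b + (1024 + s))) :
    ∀ s, s < 129 → (fold16 x).testBit (a + s) = (fold16 y).testBit (b + s) := by
  unfold fold16
  have h0 : ∀ s, s < 502 + 521 → (Nat.shiftRight x 1024).testBit (a + s) =
      (Nat.shiftRight y 1024).testBit (b + s) := by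
    intro s hs
    show (x >>> 1024).testBit (a + s) = (y >>> 1024).testBit (b + s)
    rw [Nat.testBit_shiftRight, Nat.testBit_shiftRight,
      show 1024 + (a + s) = a + (1024 + s) by omega,
      show 1024 + (b + s) = b + (1024 + s) by omega]
    exact h s (by omega)
  have h1 := fs_agree (n := 502) (d := 521) h0
  have h2 := fs_agree (n := 312) (d := 190) (fun s hs => h1 s (by omega))
  have h3 := fs_agree (n := 220) (d := 92) (fun s hs => h2 s (by omega))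
  have h4 := fs_agree (n := 169) (d := 51) (fun s hs => h3 s (by omega))
  have h5 := fs_agree (n := 143) (d := 26) (fun s hs => h4 s (by omega))
  exact fs_agree (n := 129) (d := 14) (fun s hs => h5 s (by omega))

theorem mod_agree {w : ℕ} (hw : w ≤ 129) {u v : ℕ} (h : Agree u v) :
    fold16 u % 2 ^ w = fold16 v % 2 ^ w := by
  refine Nat.eq_of_testBit_eq fun t => ?_
  rw [Nat.testBit_mod_two_pow, Nat.testBit_mod_two_pow]
  by_cases ht : t < w
  · have h1 := foldX_agree (a := 0) (b := 0) (x := u) (y := v)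
      (fun s hs => by simpa using h s hs) t (by omega)
    simp only [Nat.zero_add] at h1
    rw [h1]
  · simp [ht]

theorem gX_agree {u v : ℕ} (h : Agree u v) : gX u = gX v := mod_agree (by norm_num) h

/-- the keys in the lanes -/
def keyX (m x : ℕ) : ℕ := Nat.land (fold16 x) m

theorem pow_small {w : ℕ} (hw : w ≤ 129) : (2 : ℕ) ^ w ≤ 2 ^ 2048 :=
  Nat.pow_le_pow_right (by norm_num) (by omega)

theorem keyX_eq {n w : ℕ} (hw : w ≤ 129) (Y : ℕ) :
    keyX ((2 ^ w - 1) * rep 2048 n) Y = pk 2048 n (fun i => fold16 (fld 2048 Y i) % 2 ^ w) := by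
  have hp := Nat.two_pow_pos w
  have hp2 := pow_small hw
  have hlt : ∀ i < n, fold16 (fld 2048 Y i) % 2 ^ w < 2 ^ 2048 := fun i _ =>
    lt_of_lt_of_le (Nat.mod_lt _ hp) hp2
  have hs : 2 ^ w - 1 < 2 ^ 2048 := by omega
  have hm : (2 ^ w - 1) * rep 2048 n = pk 2048 n (fun _ => 2 ^ w - 1) := mul_rep (by norm_num) _
  have hml : (2 ^ w - 1) * rep 2048 n < 2 ^ (2048 * n) := by
    rw [hm]
    exact pk_lt fun i _ => hs
  refine eq_of_fld (W := 2048) (n := n) (lt_of_le_of_lt Nat.and_le_right hml) (pk_lt hlt)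
    fun i hi => ?_
  rw [fld_pk hlt hi]
  refine Nat.eq_of_testBit_eq fun t => ?_
  rw [Nat.testBit_mod_two_pow]
  by_cases h1 : t < 2048
  · rw [testBit_fld h1]
    show (fold16 Y &&& ((2 ^ w - 1) * rep 2048 n)).testBit (2048 * i + t) = _
    have h2 : ((2 ^ w - 1) * rep 2048 n).testBit (2048 * i + t) = decide (t < w) := by
      rw [← testBit_fld h1, hm, fld_pk (fun j _ => hs) hi, Nat.testBit_two_pow_sub_one]
    rw [Nat.testBit_and, h2]
    by_cases h3 : t < w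
    · have h4 := foldX_agree (a := 2048 * i) (b := 0) (x := Y) (y := fld 2048 Y i)
        (fun s hs => by rw [Nat.zero_add, testBit_fld (by omega)]) t (by omega)
      rw [Nat.zero_add] at h4
      simp [h3, h4]
    · simp [h3]
  · rw [testBit_fld_ge (Nat.not_lt.1 h1)]
    have h3 : ¬ t < w := by omega
    simp [h3]

theorem mod_pow_land {x w v : ℕ} (h : w ≤ v) : x % 2 ^ v &&& (2 ^ w - 1) = x % 2 ^ w := by
  rw [Nat.and_two_pow_sub_one_eq_mod, Nat.mod_mod_of_dvd _ (pow_dvd_pow 2 h)]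

/-! ### compression to fields of 32 bits -/

/-- 64 lanes: `q = 2 ^ 2048 - 2 ^ 32` -/
def cmp64 (q x : ℕ) : ℕ := Nat.mod x q

/-- 128 lanes -/
def cmp128 (q x : ℕ) : ℕ :=
  Nat.add (Nat.mod (Nat.mod x (Nat.pow 2 131072)) q)
    (Nat.mul (Nat.pow 2 2048) (Nat.mod (Nat.shiftRight x 131072) q))

theorem cmp64_eq {k : ℕ → ℕ} (hk : ∀ i < 64, k i < 2 ^ 31) :
    cmp64 (2 ^ 2048 - 2 ^ 32) (pk 2048 64 k) = pk 32 64 k := by
  have h1 := Pool.Agent.Helper38.TY.keyC_eq (W := 32) (N' := 64) (by norm_num) (by norm_num) hk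
  rw [show 32 * 64 = 2048 from rfl] at h1
  exact h1

theorem cmp128_eq {k : ℕ → ℕ} (hk : ∀ i < 128, k i < 2 ^ 31) :
    cmp128 (2 ^ 2048 - 2 ^ 32) (pk 2048 128 k) = pk 32 128 k := by
  have e1 : pk 2048 128 k = pk 2048 64 k + 2 ^ 131072 * pk 2048 64 (fun i => k (64 + i)) :=
    pk_split (W := 2048) (n := 64) (m := 64) k
  have e2 : pk 32 128 k = pk 32 64 k + 2 ^ 2048 * pk 32 64 (fun i => k (64 + i)) :=
    pk_split (W := 32) (n := 64) (m := 64) k
  have h1 : pk 2048 64 k < 2 ^ 131072 :=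
    pk_lt (W := 2048) (N := 64) fun i hi => lt_of_lt_of_le (hk i (by omega))
      (Nat.pow_le_pow_right (by norm_num) (by norm_num))
  have h2 := cmp64_eq (k := k) fun i hi => hk i (by omega)
  have h3 := cmp64_eq (k := fun i => k (64 + i)) fun i hi => hk _ (by omega)
  unfold cmp64 at h2 h3
  generalize hq : 2 ^ 2048 - 2 ^ 32 = q at h2 h3 ⊢
  have e3 : cmp128 q (pk 2048 128 k) = Nat.mod (pk 2048 128 k % 2 ^ 131072) q +
    2 ^ 2048 * Nat.mod (pk 2048 128 k >>> 131072) q := rfl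
  have e4 : (pk 2048 64 k + 2 ^ 131072 * pk 2048 64 (fun i => k (64 + i))) / 2 ^ 131072 =
      pk 2048 64 (fun i => k (64 + i)) := by
    rw [Nat.add_mul_div_left _ _ (Nat.two_pow_pos _), Nat.div_eq_of_lt h1, Nat.zero_add]
  rw [e3, e1, Nat.shiftRight_eq_div_pow, Nat.add_mul_mod_self_left, Nat.mod_eq_of_lt h1, e4,
    h2, h3, e2]

/-! ### 128 lanes, 15 and 31 bits -/

/-- rows of the matrix: `m = (2 ^ 15 - 1) * rep 2048 128`, `r = rep 16 128` -/
def rK2 (m r Y : ℕ) : ℕ := Nat.mul (keyX m Y) r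

/-- columns of the matrix: `r = rep 2048 128`, `q = 2 ^ 2048 - 2 ^ 16` -/
def cK2 (m r q Z : ℕ) : ℕ := Nat.mul r (Nat.mod (keyX m Z) q)

/-- long keys of a chunk of 128 lanes: `m = (2 ^ 31 - 1) * rep 2048 128`,
`q = 2 ^ 2048 - 2 ^ 32` -/
def lK2 (m q Y : ℕ) : ℕ := cmp128 q (keyX m Y)

/-- the pair step of `star2` -/
def pS2 (P M H H1 M2 H2 R2 A ka B kb : ℕ) (f : ℕ → ℕ → Cb) : Cb :=
  pr3 and7 15 65535 P M H H1 M2 H2 R2 A ka B kb f

theorem visits_pS2 : Visits2 2048 128 (rK2 ((2 ^ 15 - 1) * rep 2048 128) (rep 16 128))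
    (lK2 ((2 ^ 31 - 1) * rep 2048 128) (2 ^ 2048 - 2 ^ 32))
    (cK2 ((2 ^ 15 - 1) * rep 2048 128) (rep 2048 128) (2 ^ 2048 - 2 ^ 16))
    (lK2 ((2 ^ 31 - 1) * rep 2048 128) (2 ^ 2048 - 2 ^ 32))
    (pS2 (2 ^ 4096) ((2 ^ 15 - 1) * rep 16 16384) (2 ^ 15 * rep 16 16384)
      (2 ^ 15 * rep 16 128) ((2 ^ 31 - 1) * rep 32 128) (2 ^ 31 * rep 32 128) (rep 32 128))
    Agree := by
  intro Y Z P f hP hT s c h
  have e1 : rK2 ((2 ^ 15 - 1) * rep 2048 128) (rep 16 128) Y =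
      pk (16 * 128) 128 (fun i => fold16 (fld 2048 Y i) % 2 ^ 15) * rep 16 128 := by
    show keyX _ Y * rep 16 128 = _
    rw [keyX_eq (by norm_num)]
  have e2 : cK2 ((2 ^ 15 - 1) * rep 2048 128) (rep 2048 128) (2 ^ 2048 - 2 ^ 16) Z =
      rep (16 * 128) 128 * pk 16 128 (fun i => fold16 (fld 2048 Z i) % 2 ^ 15) := by
    have h0 : cK2 ((2 ^ 15 - 1) * rep 2048 128) (rep 2048 128) (2 ^ 2048 - 2 ^ 16) Z =
      rep 2048 128 * Pool.Agent.Helper38.TY.keyC (2 ^ 2048 - 2 ^ 16)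
        (keyX ((2 ^ 15 - 1) * rep 2048 128) Z) := rfl
    rw [h0, keyX_eq (by norm_num), cmp16_eq fun i _ => Nat.mod_lt _ (by norm_num)]
  have e3 : ∀ X, lK2 ((2 ^ 31 - 1) * rep 2048 128) (2 ^ 2048 - 2 ^ 32) X =
      pk 32 128 (fun i => gX (fld 2048 X i)) := by
    intro X
    unfold lK2
    rw [keyX_eq (by norm_num)]
    exact cmp128_eq fun i _ => gX_lt _
  rw [e1, e2, e3, e3] at h
  have h1 := pr3_acc (an := and7) (W := 16) (N := 128) (N' := 128) (K := 4096) (k := 7)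
    (by norm_num) (by norm_num) (by norm_num) and7_eq
    (by norm_num) (by norm_num) (a := fun i => fold16 (fld 2048 Y i) % 2 ^ 15)
    (b := fun i => fold16 (fld 2048 Z i) % 2 ^ 15) (a' := fun i => gX (fld 2048 Y i))
    (b' := fun i => gX (fld 2048 Z i)) (fun _ _ => Nat.mod_lt _ (by norm_num))
    (fun _ _ => Nat.mod_lt _ (by norm_num)) (fun _ _ => gX_lt _) (fun _ _ => gX_lt _)
    (P := P) (f := f) hP hT s c h
  refine ⟨fun i j hi hj hR => h1.1 i hi j hj ?_ (gX_agree hR), h1.2⟩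
  exact mod_agree (by norm_num) hR

/-- THE STAR ENGINE for 128-lane chunks -/
def star2 (cb : ℕ → ℕ → Cb) (ys zs : List ℕ) : Cb := fun s c =>
  frc ((2 ^ 15 - 1) * rep 2048 128) fun m1 => frc ((2 ^ 31 - 1) * rep 2048 128) fun m2 =>
  frc (rep 16 128) fun r => frc (rep 2048 128) fun r' => frc (2 ^ 2048 - 2 ^ 16) fun q1 =>
  frc (2 ^ 2048 - 2 ^ 32) fun q2 => frc (2 ^ 4096) fun P =>
  frc ((2 ^ 15 - 1) * rep 16 16384) fun M => frc (2 ^ 15 * rep 16 16384) fun H =>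
  frc (2 ^ 15 * rep 16 128) fun H1 => frc ((2 ^ 31 - 1) * rep 32 128) fun M2 =>
  frc (2 ^ 31 * rep 32 128) fun H2 => frc (rep 32 128) fun R2 =>
    chk2 2048 (rK2 m1 r) (lK2 m2 q2) (cK2 m1 r' q1) (lK2 m2 q2)
      (pS2 P M H H1 M2 H2 R2) cb ys zs s c

/-- SOUNDNESS of the engine, as a step -/
theorem join_of_star2 {D : ℕ → ℕ → Prop} {cb : ℕ → ℕ → Cb}
    (hcb : ∀ u v, Acc (Agree u v → D u v) (cb u v)) (ys zs : List ℕ) :
    Acc (Join 128 D ys zs) (star2 cb ys zs) := by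
  intro s c h
  unfold star2 at h
  simp only [frc_eq] at h
  have h1 := acc_chk2 2048 128 _ _ _ _ _ cb visits_pS2 hcb ys zs s c h
  exact ⟨join_of_all h1.1, h1.2⟩

/-! ### 64 lanes, 31 bits -/

/-- rows of the matrix: `m = (2 ^ 31 - 1) * rep 2048 64`, `r = rep 32 64` -/
def rK3 (m r Z : ℕ) : ℕ := Nat.mul (keyX m Z) r

/-- columns of the matrix: `r = rep 2048 64`, `q = 2 ^ 2048 - 2 ^ 32` -/
def cK3 (m r q Y : ℕ) : ℕ := Nat.mul r (cmp64 q (keyX m Y))

/-- no second key -/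
def zK3 (_ : ℕ) : ℕ := 0

/-- the pair step of `star2s`: the lanes of `z` are the rows of the matrix -/
def pS3 (P M H B _b A _a : ℕ) (f : ℕ → ℕ → Cb) : Cb := pr4 64 31 4294967295 P M H B A f

theorem visits_pS3 : Visits2 2048 64
    (cK3 ((2 ^ 31 - 1) * rep 2048 64) (rep 2048 64) (2 ^ 2048 - 2 ^ 32)) zK3
    (rK3 ((2 ^ 31 - 1) * rep 2048 64) (rep 32 64)) zK3
    (pS3 (2 ^ 131072) ((2 ^ 31 - 1) * rep 32 4096) (2 ^ 31 * rep 32 4096)) Agree := by
  intro Y Z P f hP hT s c h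
  have e1 : rK3 ((2 ^ 31 - 1) * rep 2048 64) (rep 32 64) Z =
      pk (32 * 64) 64 (fun i => gX (fld 2048 Z i)) * rep 32 64 := by
    show keyX _ Z * rep 32 64 = _
    rw [keyX_eq (by norm_num)]
    rfl
  have e2 : cK3 ((2 ^ 31 - 1) * rep 2048 64) (rep 2048 64) (2 ^ 2048 - 2 ^ 32) Y =
      rep (32 * 64) 64 * pk 32 64 (fun i => gX (fld 2048 Y i)) := by
    show rep 2048 64 * cmp64 _ (keyX _ Y) = _
    rw [keyX_eq (by norm_num)]
    exact congrArg _ (cmp64_eq fun i _ => gX_lt (fld 2048 Y i))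
  rw [e1, e2] at h
  have h1 := pr4_acc (W := 32) (N := 64) (N' := 64) (K := 131072)
    (by norm_num) (by norm_num) (by norm_num) (a := fun j => gX (fld 2048 Z j))
    (b := fun i => gX (fld 2048 Y i)) (fun _ _ => gX_lt _) (fun _ _ => gX_lt _)
    (P := P) (f := f) hP hT s c h
  exact ⟨fun i j hi hj hR => h1.1 j hj i hi (gX_agree hR).symm, h1.2⟩

/-- THE STAR ENGINE for 64-lane chunks -/
def star2s (cb : ℕ → ℕ → Cb) (ys zs : List ℕ) : Cb := fun s c =>
  frc ((2 ^ 31 - 1) * rep 2048 64) fun m => frc (rep 32 64) fun r => frc (rep 2048 64) fun r' =>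
  frc (2 ^ 2048 - 2 ^ 32) fun q2 => frc (2 ^ 131072) fun P =>
  frc ((2 ^ 31 - 1) * rep 32 4096) fun M => frc (2 ^ 31 * rep 32 4096) fun H =>
    chk2 2048 (cK3 m r' q2) zK3 (rK3 m r) zK3 (pS3 P M H) cb ys zs s c

/-- SOUNDNESS of the engine, as a step -/
theorem join_of_star2s {D : ℕ → ℕ → Prop} {cb : ℕ → ℕ → Cb}
    (hcb : ∀ u v, Acc (Agree u v → D u v) (cb u v)) (ys zs : List ℕ) :
    Acc (Join 64 D ys zs) (star2s cb ys zs) := by
  intro s c h
  unfold star2s at h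
  simp only [frc_eq] at h
  have h1 := acc_chk2 2048 64 _ _ _ _ _ cb visits_pS3 hcb ys zs s c h
  exact ⟨join_of_all h1.1, h1.2⟩

/-! ### 64 lanes, 31 bits, the order of `star` -/

/-- the pair step of `star4`: the lanes of `y` are the rows of the matrix -/
def pS4 (P M H A _a B _b : ℕ) (f : ℕ → ℕ → Cb) : Cb :=
  pr4 64 31 4294967295 P M H B A fun j i => f i j

theorem visits_pS4 : Visits2 2048 64
    (rK3 ((2 ^ 31 - 1) * rep 2048 64) (rep 32 64)) zK3
    (cK3 ((2 ^ 31 - 1) * rep 2048 64) (rep 2048 64) (2 ^ 2048 - 2 ^ 32)) zK3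
    (pS4 (2 ^ 131072) ((2 ^ 31 - 1) * rep 32 4096) (2 ^ 31 * rep 32 4096)) Agree := by
  intro Y Z P f hP hT s c h
  have e1 : rK3 ((2 ^ 31 - 1) * rep 2048 64) (rep 32 64) Y =
      pk (32 * 64) 64 (fun i => gX (fld 2048 Y i)) * rep 32 64 := by
    show keyX _ Y * rep 32 64 = _
    rw [keyX_eq (by norm_num)]
    rfl
  have e2 : cK3 ((2 ^ 31 - 1) * rep 2048 64) (rep 2048 64) (2 ^ 2048 - 2 ^ 32) Z =
      rep (32 * 64) 64 * pk 32 64 (fun i => gX (fld 2048 Z i)) := by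
    show rep 2048 64 * cmp64 _ (keyX _ Z) = _
    rw [keyX_eq (by norm_num)]
    exact congrArg _ (cmp64_eq fun i _ => gX_lt (fld 2048 Z i))
  rw [e1, e2] at h
  have h1 := pr4_acc (W := 32) (N := 64) (N' := 64) (K := 131072)
    (by norm_num) (by norm_num) (by norm_num) (a := fun i => gX (fld 2048 Y i))
    (b := fun j => gX (fld 2048 Z j)) (fun _ _ => gX_lt _) (fun _ _ => gX_lt _)
    (P := fun j i => P i j) (f := fun j i => f i j) (fun j i hj hi => hP i j hi hj)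
    (fun j i => hT i j) s c h
  exact ⟨fun i j hi hj hR => h1.1 i hi j hj (gX_agree hR), h1.2⟩

/-- THE STAR ENGINE for 64-lane chunks in the order of `star` -/
def star4 (cb : ℕ → ℕ → Cb) (ys zs : List ℕ) : Cb := fun s c =>
  frc ((2 ^ 31 - 1) * rep 2048 64) fun m => frc (rep 32 64) fun r => frc (rep 2048 64) fun r' =>
  frc (2 ^ 2048 - 2 ^ 32) fun q2 => frc (2 ^ 131072) fun P =>
  frc ((2 ^ 31 - 1) * rep 32 4096) fun M => frc (2 ^ 31 * rep 32 4096) fun H =>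
    chk2 2048 (rK3 m r) zK3 (cK3 m r' q2) zK3 (pS4 P M H) cb ys zs s c

/-- SOUNDNESS of the engine, as a step -/
theorem star4_acc {D : ℕ → ℕ → Prop} {cb : ℕ → ℕ → Cb}
    (hcb : ∀ u v, Acc (Agree u v → D u v) (cb u v)) (ys zs : List ℕ) :
    Acc (∀ Y ∈ ys, ∀ Z ∈ zs, ∀ i < 64, ∀ j < 64, Agree (fld 2048 Y i) (fld 2048 Z j) →
      D (fld 2048 Y i) (fld 2048 Z j)) (star4 cb ys zs) := by
  intro s c h
  unfold star4 at h
  simp only [frc_eq] at h
  exact acc_chk2 2048 64 _ _ _ _ _ cb visits_pS4 hcb ys zs s c h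

end Pool.Agent.Helper63.TY
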