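import Pool.Agent.Helper63.TY.Key
import Pool.Agent.Helper79.CV.FBlockA

/-!
MP_8ee768_co, project TH-Y', stage F: a frame is dead if the joins of its blocks are.

`Lanes n cs` is the set of the lanes of a list of chunks, `Join n D ys zs` says that all agreeing
pairs of lanes satisfy `D`. `frameF_of_joins`: nine joins (excess of the lanes `m`, `m'`; relative
or full lists) give `FrameF reps j f`.
-/

set_option autoImplicit false

namespace Pool.Agent.Helper63.TY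

open Finset
open Pool.Agent.Helper89.CV (OddCover)
open Pool.Agent.Helper97.CV
open Pool.Agent.Helper33.CV
open Pool.Agent.Helper82.TY (below)
open Pool.Agent.Helper63.SIMD
open Pool.Agent.Helper79.CV

/-- the lanes of a list of chunks -/
def Lanes (n : ℕ) (cs : List ℕ) : Set ℕ := {u | ∃ X ∈ cs, ∃ i < n, u = fld 2048 X i}

/-- all agreeing pairs of lanes satisfy `D` -/
def Join (n : ℕ) (D : ℕ → ℕ → Prop) (ys zs : List ℕ) : Prop :=
  ∀ u ∈ Lanes n ys, ∀ v ∈ Lanes n zs, Agree u v → D u v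

theorem Join.mono {n : ℕ} {D D' : ℕ → ℕ → Prop} {ys zs : List ℕ} (h : Join n D ys zs)
    (hD : ∀ u v, D u v → D' u v) : Join n D' ys zs :=
  fun u hu v hv ha => hD u v (h u hu v hv ha)

theorem lanes_append {n : ℕ} {cs cs' : List ℕ} : Lanes n (cs ++ cs') = Lanes n cs ∪ Lanes n cs' := by
  ext u
  constructor
  · rintro ⟨X, hX, h⟩
    rcases List.mem_append.1 hX with hX | hX
    · exact Or.inl ⟨X, hX, h⟩
    · exact Or.inr ⟨X, hX, h⟩
  · rintro (⟨X, hX, h⟩ | ⟨X, hX, h⟩)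
    · exact ⟨X, List.mem_append.2 (Or.inl hX), h⟩
    · exact ⟨X, List.mem_append.2 (Or.inr hX), h⟩

theorem join_append_left {n : ℕ} {D : ℕ → ℕ → Prop} {ys ys' zs : List ℕ}
    (h : Join n D ys zs) (h' : Join n D ys' zs) : Join n D (ys ++ ys') zs := by
  intro u hu
  rw [lanes_append] at hu
  rcases hu with hu | hu
  · exact h u hu
  · exact h' u hu

theorem join_append_right {n : ℕ} {D : ℕ → ℕ → Prop} {ys zs zs' : List ℕ}
    (h : Join n D ys zs) (h' : Join n D ys zs') : Join n D ys (zs ++ zs') := by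
  intro u hu v hv
  rw [lanes_append] at hv
  rcases hv with hv | hv
  · exact h u hu v hv
  · exact h' u hu v hv

/-- what the engine gives (any number of lanes) -/
theorem join_of_all {n : ℕ} {D : ℕ → ℕ → Prop} {ys zs : List ℕ}
    (h : ∀ Y ∈ ys, ∀ Z ∈ zs, ∀ i < n, ∀ j < n, Agree (fld 2048 Y i) (fld 2048 Z j) →
      D (fld 2048 Y i) (fld 2048 Z j)) : Join n D ys zs := by
  rintro u ⟨Y, hY, i, hi, rfl⟩ v ⟨Z, hZ, j, hj, rfl⟩ ha
  exact h Y hY Z hZ i hi j hj ha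

/-- the 64-lane engine -/
theorem join_of_star {D : ℕ → ℕ → Prop} {cb : ℕ → ℕ → Cb}
    (hcb : ∀ u v, Acc (Agree u v → D u v) (cb u v)) (ys zs : List ℕ) :
    Acc (Join 64 D ys zs) (star cb ys zs) :=
  (star_acc hcb ys zs).mono join_of_all

/-! ### the context of a block -/

/-- `mx` is the only excess of the class `j` -/
def MxOK (lo hi : ℕ → ℕ) (j mx : ℕ) : Prop :=
  ∀ m, m = 0 ∨ m = 2 ∨ m = 4 → lo m ≤ j → j < hi m → m = mx

theorem hm_ctx {reps : List ℕ} {lo hi : ℕ → ℕ} {j f m m' mx : ℕ} (hs : SizeOK reps lo hi)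
    (hmx : MxOK lo hi j mx) {B : Fam} (h : HM reps j f m m' B) :
    StarCtx f (max m m') (mx + m + m') 0 B := by
  have hq := h.1.1
  have hB := hq.best.odd
  have h1 := two_mul_card_link hB 12
  obtain ⟨a, ha⟩ := MM_even hB 12
  have hx := hq.hx
  have h2 := size_of_moved hs hB hq.cls hx
  have h3 := hmx (MM B 12) (by omega) h2.1 h2.2
  rw [h.1.2] at h1
  exact h.ctx (by omega)

/-- **a frame of stage F is dead if the nine joins are** -/
theorem frameF_of_joins {reps : List ℕ} {j f Ty Tz mx : ℕ} {ρy ρz : Equiv.Perm (Fin 13)}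
    (hd : FrameD f Ty Tz ρy ρz) {A A' : Set (Equiv.Perm (Fin 13))}
    {l lx l' lx' : List (ℕ × ℕ)}
    (hl : TabA reps Ty 4 (fun _ _ => True) A l) (hlx : TabA reps Ty 4 RelX A lx)
    (hl' : TabA reps Tz 4 (fun _ _ => True) A' l') (hlx' : TabA reps Tz 4 RelX A' lx')
    {lo hi : ℕ → ℕ} (hs : SizeOK reps lo hi) (hmx : MxOK lo hi j mx)
    {n : ℕ} {X F X' F' : ℕ → List ℕ}
    (hX : ∀ m, m = 0 ∨ m = 2 ∨ m = 4 → cubesA Ty j (lo m) (hi m) ρy A lx ⊆ Lanes n (X m))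
    (hF : ∀ m, m = 2 ∨ m = 4 → cubesA Ty j (lo m) (hi m) ρy A l ⊆ Lanes n (F m))
    (hX' : ∀ m, m = 0 ∨ m = 2 ∨ m = 4 → cubesA Tz j (lo m) (hi m) ρz A' lx' ⊆ Lanes n (X' m))
    (hF' : ∀ m, m = 2 ∨ m = 4 → cubesA Tz j (lo m) (hi m) ρz A' l' ⊆ Lanes n (F' m))
    (h00 : Join n (LaneDead (StarCtx f 0 mx 0)) (X 0) (X' 0))
    (h02 : Join n (LaneDead (StarCtx f 2 (mx + 2) 0)) (X 0) (F' 2))
    (h20 : Join n (LaneDead (StarCtx f 2 (mx + 2) 0)) (F 2) (X' 0))
    (h22 : Join n (LaneDead (StarCtx f 2 (mx + 4) 0)) (X 2) (X' 2))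
    (h04 : Join n (LaneDead (StarCtx f 4 (mx + 4) 0)) (X 0) (F' 4))
    (h40 : Join n (LaneDead (StarCtx f 4 (mx + 4) 0)) (F 4) (X' 0))
    (h24 : Join n (LaneDead (StarCtx f 4 (mx + 6) 0)) (X 2) (F' 4))
    (h42 : Join n (LaneDead (StarCtx f 4 (mx + 6) 0)) (F 4) (X' 2))
    (h44 : Join n (LaneDead (StarCtx f 4 (mx + 8) 0)) (X 4) (X' 4)) :
    FrameF reps j f := by
  have key : ∀ m m' c t, c = max m m' → t = mx + m + m' → ∀ u v,
      LaneDead (StarCtx f c t 0) u v → LaneDead (HM reps j f m m') u v := by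
    intro m m' c t hc ht u v h
    subst hc ht
    exact h.mono fun B hB => hm_ctx hs hmx hB
  refine frameF_of_blocksA hd hl hlx hl' hlx' hs ?_ ?_ ?_
  · rintro m (rfl | rfl | rfl) u hu v hv ha
    · exact key 0 0 0 mx rfl rfl u v
        (h00 u (hX 0 (by omega) hu) v (hX' 0 (by omega) hv) (agree_of_shift ha))
    · exact key 2 2 2 (mx + 4) rfl rfl u v
        (h22 u (hX 2 (by omega) hu) v (hX' 2 (by omega) hv) (agree_of_shift ha))
    · exact key 4 4 4 (mx + 8) rfl rfl u v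
        (h44 u (hX 4 (by omega) hu) v (hX' 4 (by omega) hv) (agree_of_shift ha))
  · rintro m m' (⟨rfl, rfl⟩ | ⟨rfl, rfl⟩ | ⟨rfl, rfl⟩) u hu v hv ha
    · exact key 0 2 2 (mx + 2) rfl rfl u v
        (h02 u (hX 0 (by omega) hu) v (hF' 2 (by omega) hv) (agree_of_shift ha))
    · exact key 0 4 4 (mx + 4) rfl rfl u v
        (h04 u (hX 0 (by omega) hu) v (hF' 4 (by omega) hv) (agree_of_shift ha))
    · exact key 2 4 4 (mx + 6) rfl (by omega) u v
        (h24 u (hX 2 (by omega) hu) v (hF' 4 (by omega) hv) (agree_of_shift ha))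
  · rintro m m' (⟨rfl, rfl⟩ | ⟨rfl, rfl⟩ | ⟨rfl, rfl⟩) u hu v hv ha
    · exact key 2 0 2 (mx + 2) rfl rfl u v
        (h20 u (hF 2 (by omega) hu) v (hX' 0 (by omega) hv) (agree_of_shift ha))
    · exact key 4 0 4 (mx + 4) rfl rfl u v
        (h40 u (hF 4 (by omega) hu) v (hX' 0 (by omega) hv) (agree_of_shift ha))
    · exact key 4 2 4 (mx + 6) rfl (by omega) u v
        (h42 u (hF 4 (by omega) hu) v (hX' 2 (by omega) hv) (agree_of_shift ha))

end Pool.Agent.Helper63.TY
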