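import Pool.Agent.Helper91.TY.Hits
import Pool.Agent.Helper63.TY.Key

/-!
MP_8ee768_co, project TH-Y', star engine: the hits of an outer product, decoded with small numbers.

`A` holds the row keys, `B` the column keys (`N` rows, `N'` columns, fields of `W` bits), `x` the top
bits of the fields with different keys. If `x` is not full, one remainder mod `2 ^ (W * N') - 1` gives
the number of hits of every column (`colCnt`); for every column with a hit its long key (fields of `V`
bits) is compared with the long keys of all rows (helper91's `outer` on short numbers).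
-/

set_option autoImplicit false

namespace Pool.Agent.Helper63.TY

open Pool.Agent.Helper63.SIMD
open Pool.Agent.Helper91.TY (outer hits hits_sound outer_sound)
open Finset

/-! ### the number of hits of the columns -/

/-- `1` if the fields `k` agree -/
def eqv (a b : ℕ → ℕ) (k : ℕ) : ℕ := if a k = b k then 1 else 0

/-- the number of hits in the column `f` -/
def colN (N N' : ℕ) (a b : ℕ → ℕ) (f : ℕ) : ℕ :=
  ∑ k ∈ (range (N * N')).filter (fun k => k % N' = f), eqv a b k

theorem colN_le {N N' : ℕ} (a b : ℕ → ℕ) (f : ℕ) : colN N N' a b f ≤ N := by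
  unfold colN
  have h1 : ∑ k ∈ (range (N * N')).filter (fun k => k % N' = f), eqv a b k ≤
      ((range (N * N')).filter (fun k => k % N' = f)).card := by
    rw [card_eq_sum_ones]
    refine sum_le_sum fun k _ => ?_
    unfold eqv
    split_ifs <;> omega
  refine le_trans h1 ?_
  -- `k ↦ k / N'` is injective on the set
  have h2 : ((range (N * N')).filter (fun k => k % N' = f)).card ≤ (range N).card := by
    refine card_le_card_of_injOn (fun k => k / N') ?_ ?_
    · intro k hk
      have hk' := (mem_filter.1 (mem_coe.1 hk)).1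
      rw [mem_range] at hk'
      exact mem_coe.2 (mem_range.2 (Nat.div_lt_of_lt_mul (by rwa [Nat.mul_comm] at hk')))
    · intro k hk l hl hkl
      have hk' := (mem_filter.1 (mem_coe.1 hk)).2
      have hl' := (mem_filter.1 (mem_coe.1 hl)).2
      have hkl' : k / N' = l / N' := hkl
      have h5 := Nat.div_add_mod k N'
      have h6 := Nat.div_add_mod l N'
      rw [← hkl', hl'] at h6
      rw [hk'] at h5
      omega
  rwa [card_range] at h2

theorem colN_pos {N N' : ℕ} {a b : ℕ → ℕ} {i j : ℕ} (hi : i < N) (hj : j < N')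
    (h : a (N' * i + j) = b (N' * i + j)) : 1 ≤ colN N N' a b j := by
  unfold colN
  have hk : N' * i + j ∈ (range (N * N')).filter (fun k => k % N' = j) := by
    rw [mem_filter, mem_range]
    refine ⟨?_, ?_⟩
    · calc N' * i + j < N' * i + N' := by omega
        _ = N' * (i + 1) := by ring
        _ ≤ N' * N := Nat.mul_le_mul_left _ hi
        _ = N * N' := Nat.mul_comm _ _
    · rw [Nat.mul_add_mod, Nat.mod_eq_of_lt hj]
  have h1 : eqv a b (N' * i + j) = 1 := if_pos h
  have h2 := single_le_sum (f := fun k => eqv a b k) (fun _ _ => Nat.zero_le _) hk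
  exact le_trans (le_of_eq h1.symm) h2

theorem pow_modEq {W N' : ℕ} (k : ℕ) :
    2 ^ (W * k) ≡ 2 ^ (W * (k % N')) [MOD 2 ^ (W * N') - 1] := by
  have h0 : (2 : ℕ) ^ (W * N') ≡ 1 [MOD 2 ^ (W * N') - 1] := by
    have h : (2 : ℕ) ^ (W * N') = (2 ^ (W * N') - 1) + 1 :=
      (Nat.sub_add_cancel Nat.one_le_two_pow).symm
    generalize (2 : ℕ) ^ (W * N') - 1 = m at h
    rw [h]
    show (m + 1) % m = 1 % m
    rw [Nat.add_mod_left]
  have e : W * k = W * N' * (k / N') + W * (k % N') := by
    conv_lhs => rw [← Nat.div_add_mod k N']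
    ring
  have e2 : (2 : ℕ) ^ (W * N' * (k / N')) = (2 ^ (W * N')) ^ (k / N') := pow_mul _ _ _
  rw [e, pow_add, e2]
  have h2 := (h0.pow (k / N')).mul_right (2 ^ (W * (k % N')))
  rwa [one_pow, one_mul] at h2

/-- the top bits of the equal fields, moved to the lowest bits, mod `2 ^ (W * N') - 1` -/
theorem sum_modEq {W N N' : ℕ} (hN' : 0 < N') (a b : ℕ → ℕ) :
    ∑ k ∈ range (N * N'), eqv a b k * 2 ^ (W * (k + N')) ≡
      pk W N' (colN N N' a b) [MOD 2 ^ (W * N') - 1] := by
  have h1 : ∑ k ∈ range (N * N'), eqv a b k * 2 ^ (W * (k + N')) ≡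
      ∑ k ∈ range (N * N'), eqv a b k * 2 ^ (W * (k % N')) [MOD 2 ^ (W * N') - 1] := by
    refine Nat.ModEq.sum fun k _ => ?_
    have h := pow_modEq (W := W) (N' := N') (k + N')
    rw [Nat.add_mod_right] at h
    exact h.mul_left _
  refine h1.trans ?_
  have h2 : ∑ k ∈ range (N * N'), eqv a b k * 2 ^ (W * (k % N')) =
      pk W N' (colN N N' a b) := by
    unfold pk colN
    rw [← sum_fiberwise_of_maps_to (s := range (N * N')) (t := range N')
      (g := fun k => k % N') (fun k _ => mem_range.2 (Nat.mod_lt _ hN'))]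
    refine sum_congr rfl fun f _ => ?_
    rw [sum_mul]
    refine sum_congr rfl fun k hk => ?_
    rw [(mem_filter.1 hk).2]
  rw [h2]

/-- the counts of the columns from `x`; `q = 2 ^ (W * N') - 1`, `hq = H % q`,
`e = 2 ^ (W * N' - (W - 1))` -/
def colCnt (q e hq x : ℕ) : ℕ :=
  Nat.mod (Nat.mul e (Nat.sub (Nat.add hq q) (Nat.mod x q))) q

theorem colCnt_eq {W N N' : ℕ} (hW : 0 < W) (hN' : 0 < N') (hN : N + 1 < 2 ^ W) {a b : ℕ → ℕ}
    {x H : ℕ} (hH : H = pk W (N * N') (fun _ => 2 ^ (W - 1)))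
    (hx : x = pk W (N * N') (fun k => if a k = b k then 0 else 2 ^ (W - 1))) :
    colCnt (2 ^ (W * N') - 1) (2 ^ (W * N' - (W - 1))) (H % (2 ^ (W * N') - 1)) x =
      pk W N' (colN N N' a b) := by
  have hle : ∀ k, (if a k = b k then 0 else 2 ^ (W - 1)) ≤ 2 ^ (W - 1) := by
    intro k
    split_ifs
    · exact Nat.zero_le _
    · exact le_refl _
  have hWN : W - 1 ≤ W * N' := by
    have := Nat.le_mul_of_pos_right W hN'
    omega
  have hsum : 2 ^ (W * N' - (W - 1)) * (H - x) =
      ∑ k ∈ range (N * N'), eqv a b k * 2 ^ (W * (k + N')) := by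
    rw [hH, hx, pk_sub (fun k _ => hle k), mul_pk]
    unfold pk
    refine sum_congr rfl fun k _ => ?_
    have e : 2 ^ (W * (k + N')) = 2 ^ (W * N' - (W - 1)) * 2 ^ (W - 1) * 2 ^ (W * k) := by
      rw [← pow_add, Nat.sub_add_cancel hWN, ← pow_add]
      congr 1
      ring
    show 2 ^ (W * N' - (W - 1)) * (2 ^ (W - 1) - if a k = b k then 0 else 2 ^ (W - 1)) *
      2 ^ (W * k) = (if a k = b k then 1 else 0) * 2 ^ (W * (k + N'))
    by_cases h : a k = b k
    · rw [if_pos h, if_pos h, Nat.sub_zero, e, one_mul]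
    · rw [if_neg h, if_neg h, Nat.sub_self, Nat.mul_zero, Nat.zero_mul, Nat.zero_mul]
  have hxH : x ≤ H := by
    rw [hH, hx]
    unfold pk
    exact sum_le_sum fun k _ => Nat.mul_le_mul_right _ (hle k)
  have hlt : pk W N' (colN N N' a b) < 2 ^ (W * N') - 1 := by
    have h1 : pk W N' (colN N N' a b) ≤ pk W N' (fun _ => 2 ^ W - 2) := by
      unfold pk
      refine sum_le_sum fun f _ => Nat.mul_le_mul_right _ ?_
      show colN N N' a b f ≤ 2 ^ W - 2
      have := colN_le (N := N) (N' := N') a b f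
      omega
    have h2 : pk W N' (fun _ => 2 ^ W - 2) + pk W N' (fun _ => 1) = 2 ^ (W * N') - 1 := by
      rw [pk_add, ← pk_one_mul hW (N := N'), Nat.mul_comm, mul_pk]
      refine pk_congr fun f _ => ?_
      show 2 ^ W - 2 + 1 = (2 ^ W - 1) * 1
      omega
    have h3 : 0 < pk W N' (fun _ => 1) := by
      unfold pk
      exact sum_pos (fun f _ => by positivity) ⟨0, mem_range.2 hN'⟩
    omega
  have hq : 0 < 2 ^ (W * N') - 1 := by omega
  show (2 ^ (W * N' - (W - 1)) * (H % (2 ^ (W * N') - 1) + (2 ^ (W * N') - 1) -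
    x % (2 ^ (W * N') - 1))) % (2 ^ (W * N') - 1) = _
  rw [← Nat.mod_eq_of_lt hlt]
  have h4 := (sum_modEq (W := W) (N := N) hN' a b)
  rw [← hsum] at h4
  refine Eq.trans ?_ h4
  generalize 2 ^ (W * N' - (W - 1)) = e0
  generalize 2 ^ (W * N') - 1 = q at hq
  -- both sides are congruent
  show _ ≡ _ [MOD q]
  refine Nat.ModEq.mul_left e0 ?_
  have h5 : x % q < q := Nat.mod_lt _ hq
  have h6 : H % q + q - x % q + x % q = H % q + q := by omega
  have h7 : H - x + x = H := Nat.sub_add_cancel hxH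
  refine Nat.ModEq.add_right_cancel (Nat.mod_modEq x q) ?_
  rw [h6, h7]
  show (H % q + q) % q = H % q
  rw [Nat.add_mod_right, Nat.mod_mod]

/-! ### fields that are not zero -/

/-- top bits of the nonzero fields -/
theorem nz_testBit {W n : ℕ} (hW : 0 < W) {c : ℕ → ℕ} (hc : ∀ f < n, c f < 2 ^ (W - 1)) {f : ℕ}
    (hf : f < n) (h1 : 1 ≤ c f) :
    ((pk W n c + (2 ^ (W - 1) - 1) * rep W n) &&& (2 ^ (W - 1) * rep W n)).testBit
      (W * f + (W - 1)) = true := by
  have h2 : 2 ^ W = 2 ^ (W - 1) + 2 ^ (W - 1) := by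
    obtain ⟨w, rfl⟩ := Nat.exists_eq_succ_of_ne_zero hW.ne'
    rw [Nat.succ_sub_one, pow_succ]
    ring
  have hp := Nat.two_pow_pos (W - 1)
  rw [mul_rep hW, mul_rep hW, pk_add, Nat.testBit_and, Bool.and_eq_true]
  constructor
  · rw [← testBit_fld (by omega), fld_pk (fun i hi => by
      have := hc i hi
      show c i + (2 ^ (W - 1) - 1) < 2 ^ W
      omega) hf]
    have h3 : c f + (2 ^ (W - 1) - 1) = 2 ^ (W - 1) * 1 + (c f - 1) := by omega
    have h4 : c f - 1 < 2 ^ (W - 1) := by
      have := hc f hf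
      omega
    rw [h3, Nat.testBit_two_pow_mul_add _ h4, if_neg (lt_irrefl _), Nat.sub_self]
    decide
  · rw [← testBit_fld (by omega), fld_pk (fun i hi => by
      show 2 ^ (W - 1) < 2 ^ W
      omega) hf]
    exact Nat.testBit_two_pow_self

/-! ### the step -/

/-- one column: `kb` = long keys of the columns, `ka` = long keys of the rows (fields of 32 bits),
`R = rep 32 N`, `M = (2 ^ 31 - 1) * R`, `H = 2 ^ 31 * R` -/
def colStep (M H R ka kb : ℕ) (f : ℕ → ℕ → Cb) (j : ℕ) : Cb := fun s c =>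
  outer M 31 4294967295 (fun i => f i j) 4097 H ka
    (Nat.mul (Nat.land (Nat.shiftRight kb (Nat.mul 32 j)) 4294967295) R) s c

/-- the pair step: `M H` for the matrix (`h = W - 1`, `m = 2 ^ W - 1`), `q e hq` for `colCnt`,
`M1 H1` for one row of fields, `M2 H2 R2` for the rows of long keys -/
def pr2 (h m M H q e hq M1 H1 M2 H2 R2 A ka B kb : ℕ) (f : ℕ → ℕ → Cb) : Cb := fun s c =>
  (fun x => @Bool.rec (fun _ => Bool)
    (hits A B m (colStep M2 H2 R2 ka kb f) 4097
      (Nat.shiftRight (Nat.land (Nat.add (colCnt q e hq x) M1) H1) h) s c)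
    (c s) (Nat.beq x H)) (Nat.land (Nat.add (Nat.xor A B) M) H)

/-- the law of the pair step -/
theorem pr2_acc {W N N' : ℕ} (hW : 1 < W) (hN' : 0 < N') (hNW : N < 2 ^ (W - 1))
    (hN'W : N' < 2 ^ W) (hN32 : N < 2 ^ 32) {a b a' b' : ℕ → ℕ}
    (ha : ∀ i < N, a i < 2 ^ (W - 1)) (hb : ∀ j < N', b j < 2 ^ (W - 1))
    (ha' : ∀ i < N, a' i < 2 ^ 31) (hb' : ∀ j < N', b' j < 2 ^ 31)
    {P : ℕ → ℕ → Prop} {f : ℕ → ℕ → Cb}
    (hf : ∀ i j, i < N → j < N' → Acc (P i j) (f i j)) (hf' : ∀ i j, Acc True (f i j))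
    {H : ℕ} (hH : H = 2 ^ (W - 1) * rep W (N * N')) {hq : ℕ}
    (hhq : hq = H % (2 ^ (W * N') - 1)) :
    Acc (∀ i < N, ∀ j < N', a i = b j → a' i = b' j → P i j)
      (pr2 (W - 1) (2 ^ W - 1) ((2 ^ (W - 1) - 1) * rep W (N * N')) H (2 ^ (W * N') - 1)
        (2 ^ (W * N' - (W - 1))) hq ((2 ^ (W - 1) - 1) * rep W N') (2 ^ (W - 1) * rep W N')
        ((2 ^ 31 - 1) * rep 32 N) (2 ^ 31 * rep 32 N) (rep 32 N)
        (pk (W * N') N a * rep W N') (pk 32 N a') (rep (W * N') N * pk W N' b) (pk 32 N' b')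
        f) := by
  intro s c hs
  have hW0 : 0 < W := by omega
  have h2 : 2 ^ W = 2 ^ (W - 1) + 2 ^ (W - 1) := by
    obtain ⟨w, rfl⟩ := Nat.exists_eq_succ_of_ne_zero hW0.ne'
    rw [Nat.succ_sub_one, pow_succ]
    ring
  have hp := Nat.two_pow_pos (W - 1)
  have hA : ∀ k < N * N', a (k / N') < 2 ^ (W - 1) := fun k hk =>
    ha _ (Nat.div_lt_of_lt_mul (by rwa [Nat.mul_comm] at hk))
  have hB : ∀ k < N * N', b (k % N') < 2 ^ (W - 1) := fun k _ => hb _ (Nat.mod_lt _ hN')
  have hxor : ∀ k < N * N', a (k / N') ^^^ b (k % N') < 2 ^ (W - 1) := fun k hk =>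
    Nat.xor_lt_two_pow (hA k hk) (hB k hk)
  have hHpk : H = pk W (N * N') (fun _ => 2 ^ (W - 1)) := by rw [hH, mul_rep hW0]
  -- the matrix
  have hx : Nat.land (Nat.add (Nat.xor (pk (W * N') N a * rep W N')
      (rep (W * N') N * pk W N' b)) ((2 ^ (W - 1) - 1) * rep W (N * N'))) H =
      pk W (N * N') (fun k => if a (k / N') = b (k % N') then 0 else 2 ^ (W - 1)) := by
    show ((pk (W * N') N a * rep W N') ^^^ (rep (W * N') N * pk W N' b)) +
      (2 ^ (W - 1) - 1) * rep W (N * N') &&& H = _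
    rw [rows hW0, cols hW0 hN', pk_xor (fun k hk => by have := hA k hk; omega)
      (fun k hk => by have := hB k hk; omega), mul_rep hW0, pk_add, hHpk,
      pk_land (fun k hk => by
        have := hxor k hk
        show (a (k / N') ^^^ b (k % N')) + (2 ^ (W - 1) - 1) < 2 ^ W
        omega) (fun k _ => by
        show 2 ^ (W - 1) < 2 ^ W
        omega)]
    refine pk_congr fun k hk => ?_
    have h3 := hxor k hk
    split_ifs with h
    · rw [h, Nat.xor_self, Nat.zero_add, Nat.land_comm, ← Nat.mul_one (2 ^ (W - 1))]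
      refine Nat.eq_of_testBit_eq fun t => ?_
      rw [Nat.testBit_and, Nat.mul_one, Nat.testBit_two_pow, Nat.testBit_two_pow_sub_one,
        Nat.zero_testBit]
      by_cases ht : W - 1 = t
      · subst ht
        simp
      · simp [ht]
    · have h4 : a (k / N') ^^^ b (k % N') ≠ 0 := fun h5 => h (Nat.xor_eq_zero_iff.1 h5)
      have h5 : (a (k / N') ^^^ b (k % N')) + (2 ^ (W - 1) - 1) =
          2 ^ (W - 1) * 1 + ((a (k / N') ^^^ b (k % N')) - 1) := by omega
      have h6 : (a (k / N') ^^^ b (k % N')) - 1 < 2 ^ (W - 1) := by omega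
      rw [h5]
      refine Nat.eq_of_testBit_eq fun t => ?_
      rw [Nat.testBit_and, Nat.testBit_two_pow_mul_add _ h6, Nat.testBit_two_pow]
      by_cases ht : W - 1 = t
      · subst ht
        simp
      · simp [ht]
  unfold pr2 at hs
  rw [hx] at hs
  set x := pk W (N * N') (fun k => if a (k / N') = b (k % N') then 0 else 2 ^ (W - 1)) with hxdef
  change @Bool.rec (fun _ => Bool) (hits (pk (W * N') N a * rep W N')
    (rep (W * N') N * pk W N' b) (2 ^ W - 1)
    (colStep ((2 ^ 31 - 1) * rep 32 N) (2 ^ 31 * rep 32 N) (rep 32 N) (pk 32 N a')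
      (pk 32 N' b') f) 4097
    ((((colCnt (2 ^ (W * N') - 1) (2 ^ (W * N' - (W - 1))) hq x) +
      (2 ^ (W - 1) - 1) * rep W N') &&& (2 ^ (W - 1) * rep W N')) >>> (W - 1)) s c) (c s)
    (Nat.beq x H) = true at hs
  -- the inner step
  have hcol : ∀ g, Pool.Agent.Helper91.TY.Acc
      (∀ i < N, g < N' → a' i = b' g → P i g)
      (colStep ((2 ^ 31 - 1) * rep 32 N) (2 ^ 31 * rep 32 N) (rep 32 N) (pk 32 N a')
        (pk 32 N' b') f g) := by
    intro g s c hs
    unfold colStep at hs
    have h30 : Nat.land (Nat.shiftRight (pk 32 N' b') (Nat.mul 32 g)) 4294967295 =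
        fld 32 (pk 32 N' b') g := ln_eq 32 (pk 32 N' b') g
    rw [h30] at hs
    have h31 : fld 32 (pk 32 N' b') g < 2 ^ 31 := by
      by_cases hg : g < N'
      · rw [fld_pk (fun i hi => lt_of_lt_of_le (hb' i hi) (by norm_num)) hg]
        exact hb' g hg
      · have h4 : pk 32 N' b' < 2 ^ (32 * g) := lt_of_lt_of_le
          (pk_lt fun i hi => lt_of_lt_of_le (hb' i hi) (by norm_num))
          (Nat.pow_le_pow_right (by norm_num) (Nat.mul_le_mul_left _ (not_lt.1 hg)))
        unfold fld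
        rw [Nat.div_eq_of_lt h4]
        norm_num
    have e1 : Nat.mul (fld 32 (pk 32 N' b') g) (rep 32 N) =
        pk 32 N (fun _ => fld 32 (pk 32 N' b') g) := mul_rep (by norm_num) _
    rw [e1] at hs
    have h5 := outer_sound (W := 32) (N := N) (by norm_num) hN32 (a := a')
      (b := fun _ => fld 32 (pk 32 N' b') g) ha' (fun _ _ => h31)
      (P := fun i => i < N → g < N' → P i g) (f := fun i => f i g) ?_
      (n := 4097) (H := 2 ^ 31 * rep 32 N) (s := s) (c := c) hs
    · refine ⟨fun i hi hg hab => ?_, h5.2⟩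
      refine h5.1 i hi ?_ ?_ hi hg
      · rw [← testBit_fld (by norm_num), mul_rep (by norm_num), fld_pk (fun i _ => by norm_num) hi]
        exact Nat.testBit_two_pow_self
      · rw [fld_pk (fun i hi => lt_of_lt_of_le (hb' i hi) (by norm_num)) hg]
        exact hab
    · intro i s c hs
      exact ⟨fun hi hg => (hf i g hi hg s c hs).1, (hf' i g s c hs).2⟩
  by_cases he : x = H
  · have hb1 : Nat.beq x H = true := by
      rw [he]
      exact Nat.beq_refl H
    rw [hb1] at hs
    refine ⟨fun i hi j hj hab _ => ?_, s, hs⟩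
    -- there is no equal pair
    have hk : N' * i + j < N * N' := by
      calc N' * i + j < N' * i + N' := by omega
        _ = N' * (i + 1) := by ring
        _ ≤ N' * N := Nat.mul_le_mul_left _ hi
        _ = N * N' := Nat.mul_comm _ _
    have h3 : ∀ k < N * N', (if a (k / N') = b (k % N') then 0 else 2 ^ (W - 1)) = 2 ^ (W - 1) := by
      rw [hHpk, hxdef] at he
      exact (pk_inj (fun k _ => by
        show (if a (k / N') = b (k % N') then 0 else 2 ^ (W - 1)) < 2 ^ W
        split_ifs <;> omega) (fun k _ => by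
        show 2 ^ (W - 1) < 2 ^ W
        omega)).1 he
    have h4 := h3 _ hk
    rw [Nat.mul_add_div hN', Nat.div_eq_of_lt hj, Nat.add_zero, Nat.mul_add_mod,
      Nat.mod_eq_of_lt hj, if_pos hab] at h4
    omega
  · have hb1 : Nat.beq x H = false := by
      rw [← Bool.not_eq_true]
      intro h1
      exact he (Nat.eq_of_beq_eq_true h1)
    rw [hb1] at hs
    have hcnt := colCnt_eq (W := W) (N := N) (N' := N') hW0 hN' (by omega)
      (a := fun k => a (k / N')) (b := fun k => b (k % N')) (x := x) hHpk hxdef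
    rw [← hhq] at hcnt
    rw [hcnt] at hs
    obtain ⟨h5, h6⟩ := hits_sound hcol hs
    refine ⟨fun i hi j hj hab hab' => ?_, h6⟩
    refine h5 j (by omega) ?_ i hi hj hab'
    rw [Nat.testBit_shiftRight, Nat.add_comm (W - 1)]
    refine nz_testBit hW0 (fun g _ => lt_of_le_of_lt (colN_le _ _ g) hNW) hj ?_
    refine colN_pos hi hj ?_
    show a ((N' * i + j) / N') = b ((N' * i + j) % N')
    rw [Nat.mul_add_div hN', Nat.div_eq_of_lt hj, Nat.add_zero, Nat.mul_add_mod,
      Nat.mod_eq_of_lt hj, hab]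

end Pool.Agent.Helper63.TY
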