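import Pool.Agent.Helper91.TY.Hits
import Pool.Agent.Helper63.TY.Key

/-!
MP_8ee768_co, project TH-Y', star engine: the hits of an outer product, decoded with few and short
operations (faster than `Hit2`, same order of the hits).

`A` holds the row keys, `B` the column keys (`N` rows, `N'` columns, fields of `W` bits, one row =
2048 bits), `x` the top bits of the fields with different keys. If `x` is not full, the AND of all
rows of `x` (halving, `la`) shows the columns with a hit; for every such column its long key (fields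
of 32 bits) is compared with the long keys of all rows. The set bits are visited with `Nat.gcd`
(lowest bit in one operation, helper99).
-/

set_option autoImplicit false

namespace Pool.Agent.Helper63.TY

open Pool.Agent.Helper63.SIMD
open Pool.Agent.Helper91.TY (bitIdx_eq)
open Finset

/-! ### the loop over the set bits -/

/-- visit all set bits of `Z` (at positions `W * k`), at most `n` of them; `m = 2 ^ W - 1`, `P` a
power of two above `Z` -/
def hitG (m P : ℕ) (f : ℕ → Cb) (n : ℕ) : ℕ → Cb :=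
  @Nat.rec (fun _ => ℕ → Cb) (fun _ _ _ => false)
    (fun _ ih Z s c => @Bool.rec (fun _ => Bool)
      ((fun b => f (Nat.mod (Nat.div (Nat.sub b 1) m) m) s fun s' => ih (Nat.xor Z b) s' c)
        (Nat.gcd Z P))
      (c s) (Nat.beq Z 0)) n

theorem hitG_succ (m P : ℕ) (f : ℕ → Cb) (n Z s : ℕ) (c : ℕ → Bool) :
    hitG m P f (n + 1) Z s c = @Bool.rec (fun _ => Bool)
      (f ((Nat.gcd Z P - 1) / m % m) s fun s' => hitG m P f n (Z ^^^ Nat.gcd Z P) s' c)
      (c s) (Nat.beq Z 0) := rfl

theorem hitG_acc {W K : ℕ} {P : ℕ → Prop} {f : ℕ → Cb} (hf : ∀ k, Acc (P k) (f k)) :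
    ∀ (n Z : ℕ), Acc (∀ k, k < 2 ^ W - 1 → Z.testBit (W * k) = true → P k)
      (hitG (2 ^ W - 1) (2 ^ K) f n Z) := by
  intro n
  induction n with
  | zero =>
    intro Z s c h
    exact absurd h Bool.false_ne_true
  | succ n ih =>
    intro Z s c h
    rw [hitG_succ] at h
    by_cases hZ : Z = 0
    · subst hZ
      refine ⟨fun k _ hk => ?_, s, h⟩
      rw [Nat.zero_testBit] at hk
      exact absurd hk Bool.false_ne_true
    · have hb : Nat.beq Z 0 = false := by
        rw [← Bool.not_eq_true]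
        intro h1
        exact hZ (Nat.eq_of_beq_eq_true h1)
      rw [hb] at h
      obtain ⟨e, _, he⟩ := (Nat.dvd_prime_pow Nat.prime_two).1 (Nat.gcd_dvd_right Z (2 ^ K))
      rw [he] at h
      obtain ⟨h4, s', h5⟩ := hf _ _ _ h
      obtain ⟨h6, h7⟩ := ih _ _ _ h5
      refine ⟨fun k hk hkt => ?_, h7⟩
      by_cases hit : W * k = e
      · subst hit
        have h8 : (2 ^ (W * k) - 1) / (2 ^ W - 1) % (2 ^ W - 1) = k := bitIdx_eq (u := 0) (v := 0) hk
        rw [h8] at h4
        exact h4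
      · refine h6 k hk ?_
        rw [Nat.testBit_xor, hkt, Nat.testBit_two_pow_of_ne (Ne.symm hit)]
        rfl

/-! ### the AND of the rows -/

/-- one halving -/
def la (d x : ℕ) : ℕ := Nat.land x (Nat.shiftRight x d)

/-- the AND of `2 ^ k` blocks of length `S` -/
def andB (S : ℕ) : ℕ → ℕ → ℕ
  | 0, x => x
  | k + 1, x => andB S k (la (S * 2 ^ k) x)

theorem andB_false {S : ℕ} : ∀ {k x p i : ℕ}, i < 2 ^ k → x.testBit (p + S * i) = false →
    (andB S k x).testBit p = false
  | 0, x, p, i, hi, h => by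
    have : i = 0 := by
      rw [pow_zero] at hi
      omega
    subst this
    exact h
  | k + 1, x, p, i, hi, h => by
    unfold andB
    have e : ∀ q, (la (S * 2 ^ k) x).testBit q = (x.testBit q && x.testBit (S * 2 ^ k + q)) := by
      intro q
      show (x &&& (x >>> (S * 2 ^ k))).testBit q = _
      rw [Nat.testBit_and, Nat.testBit_shiftRight]
    by_cases h1 : i < 2 ^ k
    · refine andB_false h1 ?_
      rw [e, h, Bool.false_and]
    · rw [pow_succ] at hi
      refine andB_false (i := i - 2 ^ k) (by omega) ?_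
      have h2 : S * 2 ^ k + (p + S * (i - 2 ^ k)) = p + S * i := by
        have h3 : S * (i - 2 ^ k) + S * 2 ^ k = S * i := by
          rw [← Nat.mul_add, Nat.sub_add_cancel (not_lt.1 h1)]
        omega
      rw [e, h2, h, Bool.and_false]

/-- 128 rows of 2048 bits -/
def and7 (x : ℕ) : ℕ :=
  la 2048 (la 4096 (la 8192 (la 16384 (la 32768 (la 65536 (la 131072 x))))))

/-- 64 rows of 2048 bits -/
def and6 (x : ℕ) : ℕ := la 2048 (la 4096 (la 8192 (la 16384 (la 32768 (la 65536 x)))))

theorem and7_eq (x : ℕ) : and7 x = andB 2048 7 x := rfl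

theorem and6_eq (x : ℕ) : and6 x = andB 2048 6 x := rfl

/-! ### the step -/

/-- one column: `kb` = long keys of the columns, `ka` = long keys of the rows (fields of 32 bits),
`R = rep 32 N`, `M = (2 ^ 31 - 1) * R`, `H = 2 ^ 31 * R`, `P` a power of two -/
def colS (P M H R ka kb : ℕ) (f : ℕ → ℕ → Cb) (j : ℕ) : Cb := fun s c =>
  hitG 4294967295 P (fun i => f i j) 4097
    (Nat.shiftRight (Nat.xor (Nat.land (Nat.add (Nat.xor ka
      (Nat.mul (Nat.land (Nat.shiftRight kb (Nat.mul 32 j)) 4294967295) R)) M) H) H) 31) s c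

/-- the pair step: `M H` for the matrix (`h = W - 1`, `m = 2 ^ W - 1`), `an` = AND of the rows,
`H1` for one row of fields, `M2 H2 R2` for the rows of long keys, `P` a power of two -/
def pr3 (an : ℕ → ℕ) (h m P M H H1 M2 H2 R2 A ka B kb : ℕ) (f : ℕ → ℕ → Cb) : Cb := fun s c =>
  (fun x => @Bool.rec (fun _ => Bool)
    (hitG m P (colS P M2 H2 R2 ka kb f) 4097 (Nat.shiftRight (Nat.xor (an x) H1) h) s c)
    (c s) (Nat.beq x H)) (Nat.land (Nat.add (Nat.xor A B) M) H)

/-- equal fields: the top bit is not in the sum, different fields: it is -/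
theorem top_land {w d : ℕ} (hd : d < 2 ^ w) :
    (d + (2 ^ w - 1)) &&& 2 ^ w = if d = 0 then 0 else 2 ^ w := by
  have hp := Nat.two_pow_pos w
  split_ifs with h
  · subst h
    rw [Nat.zero_add]
    refine Nat.eq_of_testBit_eq fun t => ?_
    rw [Nat.testBit_and, Nat.testBit_two_pow, Nat.testBit_two_pow_sub_one, Nat.zero_testBit]
    by_cases ht : w = t
    · subst ht
      simp
    · simp [ht]
  · have h5 : d + (2 ^ w - 1) = 2 ^ w * 1 + (d - 1) := by omega
    have h6 : d - 1 < 2 ^ w := by omega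
    rw [h5]
    refine Nat.eq_of_testBit_eq fun t => ?_
    rw [Nat.testBit_and, Nat.testBit_two_pow_mul_add _ h6, Nat.testBit_two_pow]
    by_cases ht : w = t
    · subst ht
      simp
    · simp [ht]

/-- the top bits of the fields with different keys -/
theorem matrix_eq {W N : ℕ} (hW : 0 < W) {a b : ℕ → ℕ} (ha : ∀ k < N, a k < 2 ^ (W - 1))
    (hb : ∀ k < N, b k < 2 ^ (W - 1)) :
    ((pk W N a ^^^ pk W N b) + (2 ^ (W - 1) - 1) * rep W N) &&& (2 ^ (W - 1) * rep W N) =
      pk W N (fun k => if a k = b k then 0 else 2 ^ (W - 1)) := by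
  have h2 : 2 ^ W = 2 ^ (W - 1) + 2 ^ (W - 1) := by
    obtain ⟨w, rfl⟩ := Nat.exists_eq_succ_of_ne_zero hW.ne'
    rw [Nat.succ_sub_one, pow_succ]
    ring
  have hp := Nat.two_pow_pos (W - 1)
  have hxor : ∀ k < N, a k ^^^ b k < 2 ^ (W - 1) := fun k hk =>
    Nat.xor_lt_two_pow (ha k hk) (hb k hk)
  rw [pk_xor (fun k hk => by have := ha k hk; omega) (fun k hk => by have := hb k hk; omega),
    mul_rep hW, mul_rep hW, pk_add, pk_land (fun k hk => by
      have := hxor k hk
      show (a k ^^^ b k) + (2 ^ (W - 1) - 1) < 2 ^ W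
      omega) (fun k _ => by
      show 2 ^ (W - 1) < 2 ^ W
      omega)]
  refine pk_congr fun k hk => ?_
  show ((a k ^^^ b k) + (2 ^ (W - 1) - 1)) &&& 2 ^ (W - 1) = _
  rw [top_land (hxor k hk)]
  by_cases h : a k = b k
  · rw [if_pos h, if_pos (by rw [h, Nat.xor_self])]
  · rw [if_neg h, if_neg fun h1 => h (Nat.xor_eq_zero_iff.1 h1)]

/-- the bit of an equal field in the complement -/
theorem compl_testBit {W N : ℕ} (hW : 0 < W) {a b : ℕ → ℕ} {k : ℕ} (hk : k < N)
    (h : a k = b k) :
    (pk W N (fun k => if a k = b k then 0 else 2 ^ (W - 1))).testBit (W * k + (W - 1)) = false := by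
  have hp : 2 ^ (W - 1) < 2 ^ W := Nat.pow_lt_pow_right (by norm_num) (by omega)
  rw [← testBit_fld (by omega), fld_pk (fun i _ => by
    show (if a i = b i then 0 else 2 ^ (W - 1)) < 2 ^ W
    split_ifs
    · exact Nat.two_pow_pos W
    · exact hp) hk, if_pos h, Nat.zero_testBit]

theorem top_testBit_rep {W N k : ℕ} (hW : 0 < W) (hk : k < N) :
    (2 ^ (W - 1) * rep W N).testBit (W * k + (W - 1)) = true := by
  have hp : 2 ^ (W - 1) < 2 ^ W := Nat.pow_lt_pow_right (by norm_num) (by omega)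
  rw [← testBit_fld (by omega), mul_rep hW, fld_pk (fun i _ => hp) hk]
  exact Nat.testBit_two_pow_self

/-- the law of one column -/
theorem colS_acc {N N' K : ℕ} (hN32 : N < 2 ^ 32 - 1) {a' b' : ℕ → ℕ}
    (ha' : ∀ i < N, a' i < 2 ^ 31) (hb' : ∀ j < N', b' j < 2 ^ 31)
    {P : ℕ → ℕ → Prop} {f : ℕ → ℕ → Cb}
    (hf : ∀ i j, i < N → j < N' → Acc (P i j) (f i j)) (hf' : ∀ i j, Acc True (f i j)) (g : ℕ) :
    Acc (∀ i < N, g < N' → a' i = b' g → P i g)
      (colS (2 ^ K) ((2 ^ 31 - 1) * rep 32 N) (2 ^ 31 * rep 32 N) (rep 32 N) (pk 32 N a')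
        (pk 32 N' b') f g) := by
  intro s c hs
  unfold colS at hs
  have h30 : Nat.land (Nat.shiftRight (pk 32 N' b') (Nat.mul 32 g)) 4294967295 =
      fld 32 (pk 32 N' b') g := ln_eq 32 (pk 32 N' b') g
  have h31 : fld 32 (pk 32 N' b') g < 2 ^ 31 := by
    by_cases hg : g < N'
    · rw [fld_pk (fun i hi => lt_of_lt_of_le (hb' i hi) (by norm_num)) hg]
      exact hb' g hg
    · have h4 : pk 32 N' b' < 2 ^ (32 * g) := lt_of_lt_of_le
        (pk_lt fun i hi => lt_of_lt_of_le (hb' i hi) (by norm_num))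
        (Nat.pow_le_pow_right (by norm_num) (Nat.mul_le_mul_left _ (not_lt.1 hg)))
      unfold fld
      rw [Nat.div_eq_of_lt h4]
      norm_num
  have e1 : Nat.mul (fld 32 (pk 32 N' b') g) (rep 32 N) =
      pk 32 N (fun _ => fld 32 (pk 32 N' b') g) := mul_rep (by norm_num) _
  rw [h30, e1] at hs
  have e2 : Nat.land (Nat.add (Nat.xor (pk 32 N a') (pk 32 N (fun _ => fld 32 (pk 32 N' b') g)))
      ((2 ^ 31 - 1) * rep 32 N)) (2 ^ 31 * rep 32 N) =
      pk 32 N (fun k => if a' k = fld 32 (pk 32 N' b') g then 0 else 2 ^ (32 - 1)) :=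
    matrix_eq (W := 32) (N := N) (by norm_num) (b := fun _ => fld 32 (pk 32 N' b') g) ha'
      (fun _ _ => h31)
  rw [e2] at hs
  have h5 := hitG_acc (W := 32) (K := K) (P := fun i => i < N → g < N' → P i g)
    (f := fun i => f i g) ?_ 4097 _ s c hs
  · refine ⟨fun i hi hg hab => h5.1 i (by omega) ?_ hi hg, h5.2⟩
    have h6 : a' i = fld 32 (pk 32 N' b') g := by
      rw [fld_pk (fun i hi => lt_of_lt_of_le (hb' i hi) (by norm_num)) hg]
      exact hab
    show ((pk 32 N (fun k => if a' k = fld 32 (pk 32 N' b') g then 0 else 2 ^ (32 - 1)) ^^^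
      (2 ^ 31 * rep 32 N)) >>> 31).testBit (32 * i) = true
    rw [Nat.testBit_shiftRight, Nat.testBit_xor, Nat.add_comm 31,
      show 32 * i + 31 = 32 * i + (32 - 1) from rfl,
      compl_testBit (W := 32) (a := a') (b := fun _ => fld 32 (pk 32 N' b') g) (by norm_num) hi h6,
      top_testBit_rep (W := 32) (by norm_num) hi]
    rfl
  · intro i s c hs
    exact ⟨fun hi hg => (hf i g hi hg s c hs).1, (hf' i g s c hs).2⟩

/-- the law of the pair step; one row of fields has `S = W * N'` bits, `N = 2 ^ k` rows -/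
theorem pr3_acc {an : ℕ → ℕ} {W N N' K k : ℕ} (hW : 1 < W) (hN' : 0 < N') (hN : N = 2 ^ k)
    (han : ∀ x, an x = andB (W * N') k x) (hN'W : N' < 2 ^ W) (hN32 : N < 2 ^ 32 - 1)
    {a b a' b' : ℕ → ℕ}
    (ha : ∀ i < N, a i < 2 ^ (W - 1)) (hb : ∀ j < N', b j < 2 ^ (W - 1))
    (ha' : ∀ i < N, a' i < 2 ^ 31) (hb' : ∀ j < N', b' j < 2 ^ 31)
    {P : ℕ → ℕ → Prop} {f : ℕ → ℕ → Cb}
    (hf : ∀ i j, i < N → j < N' → Acc (P i j) (f i j)) (hf' : ∀ i j, Acc True (f i j)) :
    Acc (∀ i < N, ∀ j < N', a i = b j → a' i = b' j → P i j)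
      (pr3 an (W - 1) (2 ^ W - 1) (2 ^ K) ((2 ^ (W - 1) - 1) * rep W (N * N'))
        (2 ^ (W - 1) * rep W (N * N')) (2 ^ (W - 1) * rep W N') ((2 ^ 31 - 1) * rep 32 N)
        (2 ^ 31 * rep 32 N) (rep 32 N) (pk (W * N') N a * rep W N') (pk 32 N a')
        (rep (W * N') N * pk W N' b) (pk 32 N' b') f) := by
  intro s c hs
  have hW0 : 0 < W := by omega
  have hp := Nat.two_pow_pos (W - 1)
  have hA : ∀ k < N * N', a (k / N') < 2 ^ (W - 1) := fun k hk =>
    ha _ (Nat.div_lt_of_lt_mul (by rwa [Nat.mul_comm] at hk))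
  have hB : ∀ k < N * N', b (k % N') < 2 ^ (W - 1) := fun k _ => hb _ (Nat.mod_lt _ hN')
  have hx : Nat.land (Nat.add (Nat.xor (pk (W * N') N a * rep W N')
      (rep (W * N') N * pk W N' b)) ((2 ^ (W - 1) - 1) * rep W (N * N')))
      (2 ^ (W - 1) * rep W (N * N')) =
      pk W (N * N') (fun k => if a (k / N') = b (k % N') then 0 else 2 ^ (W - 1)) := by
    show ((pk (W * N') N a * rep W N') ^^^ (rep (W * N') N * pk W N' b)) +
      (2 ^ (W - 1) - 1) * rep W (N * N') &&& (2 ^ (W - 1) * rep W (N * N')) = _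
    rw [rows hW0, cols hW0 hN']
    exact matrix_eq hW0 hA hB
  unfold pr3 at hs
  rw [hx] at hs
  set x := pk W (N * N') (fun k => if a (k / N') = b (k % N') then 0 else 2 ^ (W - 1)) with hxdef
  set H := 2 ^ (W - 1) * rep W (N * N') with hH
  change @Bool.rec (fun _ => Bool) (hitG (2 ^ W - 1) (2 ^ K)
    (colS (2 ^ K) ((2 ^ 31 - 1) * rep 32 N) (2 ^ 31 * rep 32 N) (rep 32 N) (pk 32 N a')
      (pk 32 N' b') f) 4097 ((an x ^^^ (2 ^ (W - 1) * rep W N')) >>> (W - 1)) s c) (c s)
    (Nat.beq x H) = true at hs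
  -- the bit of an equal pair
  have hbit : ∀ i < N, ∀ j < N', a i = b j → x.testBit ((W * j + (W - 1)) + W * N' * i) = false := by
    intro i hi j hj hab
    have hk : N' * i + j < N * N' := by
      calc N' * i + j < N' * i + N' := by omega
        _ = N' * (i + 1) := by ring
        _ ≤ N' * N := Nat.mul_le_mul_left _ hi
        _ = N * N' := Nat.mul_comm _ _
    have h1 := compl_testBit (W := W) (N := N * N') (a := fun k => a (k / N'))
      (b := fun k => b (k % N')) hW0 hk (by
        show a ((N' * i + j) / N') = b ((N' * i + j) % N')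
        rw [Nat.mul_add_div hN', Nat.div_eq_of_lt hj, Nat.add_zero, Nat.mul_add_mod,
          Nat.mod_eq_of_lt hj, hab])
    have e : W * (N' * i + j) + (W - 1) = (W * j + (W - 1)) + W * N' * i := by ring
    rwa [e] at h1
  by_cases he : x = H
  · have hb1 : Nat.beq x H = true := by
      rw [he]
      exact Nat.beq_refl H
    rw [hb1] at hs
    refine ⟨fun i hi j hj hab _ => ?_, s, hs⟩
    have h1 := hbit i hi j hj hab
    have hk : N' * i + j < N * N' := by
      calc N' * i + j < N' * i + N' := by omega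
        _ = N' * (i + 1) := by ring
        _ ≤ N' * N := Nat.mul_le_mul_left _ hi
        _ = N * N' := Nat.mul_comm _ _
    have e : W * (N' * i + j) + (W - 1) = (W * j + (W - 1)) + W * N' * i := by ring
    rw [he, hH, ← e, top_testBit_rep hW0 hk] at h1
    exact absurd h1.symm Bool.false_ne_true
  · have hb1 : Nat.beq x H = false := by
      rw [← Bool.not_eq_true]
      intro h1
      exact he (Nat.eq_of_beq_eq_true h1)
    rw [hb1] at hs
    obtain ⟨h5, h6⟩ := hitG_acc (colS_acc (K := K) hN32 ha' hb' hf hf') 4097 _ s c hs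
    refine ⟨fun i hi j hj hab hab' => h5 j (by omega) ?_ i hi hj hab', h6⟩
    have h1 : (an x).testBit (W * j + (W - 1)) = false := by
      rw [han]
      exact andB_false (by rwa [← hN]) (hbit i hi j hj hab)
    rw [Nat.testBit_shiftRight, Nat.testBit_xor, Nat.add_comm (W - 1), h1,
      top_testBit_rep hW0 hj]
    rfl

/-! ### the direct step -/

/-- the pair step without decoding by columns (cheapest if there are no false hits): the matrix has
the rows `A` (lanes `j` of the second chunk) and the columns `B` (lanes `i` of the first chunk) -/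
def pr4 (n h m P M H B A : ℕ) (f : ℕ → ℕ → Cb) : Cb := fun s c =>
  (fun x => @Bool.rec (fun _ => Bool)
    (hitG m P (fun k => f (Nat.mod k n) (Nat.div k n)) 16385
      (Nat.shiftRight (Nat.xor x H) h) s c)
    (c s) (Nat.beq x H)) (Nat.land (Nat.add (Nat.xor A B) M) H)

/-- the law of the direct step: `a` = keys of the rows `j < N`, `b` = keys of the columns
`i < N'` -/
theorem pr4_acc {W N N' K : ℕ} (hW : 1 < W) (hN' : 0 < N') (hNW : N * N' < 2 ^ W)
    {a b : ℕ → ℕ} (ha : ∀ j < N, a j < 2 ^ (W - 1)) (hb : ∀ i < N', b i < 2 ^ (W - 1))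
    {P : ℕ → ℕ → Prop} {f : ℕ → ℕ → Cb}
    (hf : ∀ i j, i < N' → j < N → Acc (P i j) (f i j)) (hf' : ∀ i j, Acc True (f i j)) :
    Acc (∀ j < N, ∀ i < N', a j = b i → P i j)
      (pr4 N' (W - 1) (2 ^ W - 1) (2 ^ K) ((2 ^ (W - 1) - 1) * rep W (N * N'))
        (2 ^ (W - 1) * rep W (N * N')) (rep (W * N') N * pk W N' b)
        (pk (W * N') N a * rep W N') f) := by
  intro s c hs
  have hW0 : 0 < W := by omega
  have hA : ∀ k < N * N', a (k / N') < 2 ^ (W - 1) := fun k hk =>
    ha _ (Nat.div_lt_of_lt_mul (by rwa [Nat.mul_comm] at hk))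
  have hB : ∀ k < N * N', b (k % N') < 2 ^ (W - 1) := fun k _ => hb _ (Nat.mod_lt _ hN')
  have hx : Nat.land (Nat.add (Nat.xor (pk (W * N') N a * rep W N')
      (rep (W * N') N * pk W N' b)) ((2 ^ (W - 1) - 1) * rep W (N * N')))
      (2 ^ (W - 1) * rep W (N * N')) =
      pk W (N * N') (fun k => if a (k / N') = b (k % N') then 0 else 2 ^ (W - 1)) := by
    show ((pk (W * N') N a * rep W N') ^^^ (rep (W * N') N * pk W N' b)) +
      (2 ^ (W - 1) - 1) * rep W (N * N') &&& (2 ^ (W - 1) * rep W (N * N')) = _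
    rw [rows hW0, cols hW0 hN']
    exact matrix_eq hW0 hA hB
  unfold pr4 at hs
  rw [hx] at hs
  set x := pk W (N * N') (fun k => if a (k / N') = b (k % N') then 0 else 2 ^ (W - 1)) with hxdef
  set H := 2 ^ (W - 1) * rep W (N * N') with hH
  change @Bool.rec (fun _ => Bool) (hitG (2 ^ W - 1) (2 ^ K)
    (fun k => f (Nat.mod k N') (Nat.div k N')) 16385 ((x ^^^ H) >>> (W - 1)) s c) (c s)
    (Nat.beq x H) = true at hs
  have hbit : ∀ j < N, ∀ i < N', a j = b i →
      N' * j + i < N * N' ∧ x.testBit (W * (N' * j + i) + (W - 1)) = false := by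
    intro j hj i hi hab
    have hk : N' * j + i < N * N' := by
      calc N' * j + i < N' * j + N' := by omega
        _ = N' * (j + 1) := by ring
        _ ≤ N' * N := Nat.mul_le_mul_left _ hj
        _ = N * N' := Nat.mul_comm _ _
    exact ⟨hk, compl_testBit (W := W) (N := N * N') (a := fun k => a (k / N'))
      (b := fun k => b (k % N')) hW0 hk (by
        show a ((N' * j + i) / N') = b ((N' * j + i) % N')
        rw [Nat.mul_add_div hN', Nat.div_eq_of_lt hi, Nat.add_zero, Nat.mul_add_mod,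
          Nat.mod_eq_of_lt hi, hab])⟩
  by_cases he : x = H
  · have hb1 : Nat.beq x H = true := by
      rw [he]
      exact Nat.beq_refl H
    rw [hb1] at hs
    refine ⟨fun j hj i hi hab => ?_, s, hs⟩
    obtain ⟨hk, h1⟩ := hbit j hj i hi hab
    rw [he, hH, top_testBit_rep hW0 hk] at h1
    exact absurd h1.symm Bool.false_ne_true
  · have hb1 : Nat.beq x H = false := by
      rw [← Bool.not_eq_true]
      intro h1
      exact he (Nat.eq_of_beq_eq_true h1)
    rw [hb1] at hs
    have hcol : ∀ k, Acc (∀ j < N, ∀ i < N', k = N' * j + i → P i j)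
        (f (Nat.mod k N') (Nat.div k N')) := by
      intro k s c h
      refine ⟨fun j hj i hi hk => ?_, (hf' _ _ s c h).2⟩
      have e1 : Nat.mod k N' = i := by
        show k % N' = i
        rw [hk, Nat.mul_add_mod, Nat.mod_eq_of_lt hi]
      have e2 : Nat.div k N' = j := by
        show k / N' = j
        rw [hk, Nat.mul_add_div hN', Nat.div_eq_of_lt hi, Nat.add_zero]
      rw [e1, e2] at h
      exact (hf i j hi hj s c h).1
    obtain ⟨h5, h6⟩ := hitG_acc (W := W) (K := K) hcol 16385 _ s c hs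
    refine ⟨fun j hj i hi hab => ?_, h6⟩
    obtain ⟨hk, h1⟩ := hbit j hj i hi hab
    refine h5 (N' * j + i) (by omega) ?_ j hj i hi rfl
    rw [Nat.testBit_shiftRight, Nat.testBit_xor, Nat.add_comm (W - 1), h1,
      top_testBit_rep hW0 hk]
    rfl

end Pool.Agent.Helper63.TY
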